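import Pool.Agent.H65.TS.Large

set_option autoImplicit false

/-!
# Total search problems with advice, and the second level of the polynomial hierarchy
-/

namespace Pool.Agent.H65.NU

open Pool.Agent.H88.RO Pool.Agent.H88.RO.Tr Pool.Agent.H65.TS

/-- The pair of two strings, coded as `1^|a| 0 a x`. -/
def pr (a x : List Bool) : List Bool := List.replicate a.length true ++ false :: (a ++ x)

/-- `a` is a sequence of strings (advice) of polynomial length. -/
def PolyLong (a : ℕ → List Bool) : Prop := ∃ q : Polynomial ℕ, ∀ n, (a n).length ≤ q.eval n

/-- The set `L` is in the class Σ₂ᵖ relative to `O`: membership of `x` means that some string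
`u` of polynomial length gives a pair `(x, u)` in a set in coNP relative to `O`. -/
def InSigma2 (O : List Bool → Bool) (L : Set (List Bool)) : Prop :=
  ∃ (M : Set (List Bool)) (p : Polynomial ℕ), InNP O Mᶜ ∧
    ∀ x, x ∈ L ↔ ∃ u : List Bool, u.length ≤ p.eval x.length ∧ pr x u ∈ M

/-- The set `L` is in the class Π₂ᵖ relative to `O`. -/
def InPi2 (O : List Bool → Bool) (L : Set (List Bool)) : Prop := InSigma2 O Lᶜ

/-- The set `L` is in the class Σ₂ᵖ/poly relative to `O`. -/
def InSigma2Poly (O : List Bool → Bool) (L : Set (List Bool)) : Prop :=
  ∃ (L' : Set (List Bool)) (a : ℕ → List Bool), InSigma2 O L' ∧ PolyLong a ∧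
    ∀ x, x ∈ L ↔ pr (a x.length) x ∈ L'

/-- A total search problem in TFNP/poly relative to `O`: as a total NP search problem, but with
polynomially long advice depending on the length of the instance. -/
structure TFNPpoly (O : List Bool → Bool) where
  /-- the relation between the instance with the advice and the solutions -/
  R : List Bool → List Bool → Bool
  /-- the polynomial bounding the length of solutions -/
  p : Polynomial ℕ
  /-- the advice -/
  adv : ℕ → List Bool
  polyTime : PolyTimeRel O R
  long : PolyLong adv
  total : ∀ x : List Bool, ∃ y : List Bool, y.length ≤ p.eval x.length ∧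
    R (pr (adv x.length) x) y = true

variable {O : List Bool → Bool}

/-- `y` is a solution of the instance `x` of `S`. -/
def TFNPpoly.IsSol (S : TFNPpoly O) (x y : List Bool) : Prop :=
  y.length ≤ S.p.eval x.length ∧ S.R (pr (S.adv x.length) x) y = true

/-- Many-one reducibility by functions computable in polynomial time with polynomially long
advice. -/
def TFNPpoly.Reduces (S T : TFNPpoly O) : Prop :=
  ∃ (f : List Bool → List Bool) (g : List Bool → List Bool → List Bool) (a : ℕ → List Bool),
    PolyTimeFun O f ∧ PolyTimeFun₂ O g ∧ PolyLong a ∧
    ∀ x y, T.IsSol (f (pr (a x.length) x)) y → S.IsSol x (g (pr (a x.length) x) y)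

/-- `HistP T c x h`: the list `h` (latest entry first) is a possible list of answers when the
program `c` asks queries to `T` on input `x`; each query is computed by `c` from `x` and the
answers received so far, and it may be answered by any of its `T`-solutions. -/
inductive HistP (T : TFNPpoly O) (c : Prog) (x : List Bool) : Tr → Prop
  | nil : HistP T c x leaf
  | cons {h : Tr} {q y : List Bool} {t : ℕ} (hh : HistP T c x h)
      (he : Eval O c (node (enc x) h) (enc q) t) (hy : T.IsSol q y) :
      HistP T c x (node (enc y) h)

/-- Turing reducibility in polynomial time with polynomially long advice: `cf` computes the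
next query to `T` and `cg` the solution, from the instance with the advice and the list of
answers; there are `s` queries, and all runs take time at most `r`. -/
def TFNPpoly.TuringReduces (S T : TFNPpoly O) : Prop :=
  ∃ (cf cg : Prog) (a : ℕ → List Bool) (r s : Polynomial ℕ), PolyLong a ∧
    ∀ x h, HistP T cf (pr (a x.length) x) h →
      (len h < s.eval x.length →
        ∃ q, ∃ t ≤ r.eval x.length, Eval O cf (node (enc (pr (a x.length) x)) h) (enc q) t) ∧
      (len h = s.eval x.length →
        ∃ w, ∃ t ≤ r.eval x.length, Eval O cg (node (enc (pr (a x.length) x)) h) (enc w) t ∧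
          S.IsSol x w)

theorem pr_length (a x : List Bool) : (pr a x).length = 2 * a.length + 1 + x.length := by
  simp [pr]; ring

/-! ### many-one reductions are Turing reductions -/

theorem TFNPpoly.TuringReduces.of_reduces {S T : TFNPpoly O} (h : S.Reduces T) :
    S.TuringReduces T := by
  obtain ⟨f, g, a, ⟨cf, qf, hf⟩, ⟨cg, qg, hg⟩, ⟨qa, ha⟩, hred⟩ := h
  have hlen : ∀ x, (f x).length ≤ 2 * qf.eval x.length := by
    intro x
    obtain ⟨t, ht, he⟩ := hf x
    have h1 := he.size_le
    have h2 := len_le_size (enc (f x))
    rw [len_enc] at h2
    omega
  let V : Polynomial ℕ := 2 * qa + 1 + Polynomial.X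
  have hV : ∀ x : List Bool, (pr (a x.length) x).length ≤ V.eval x.length := by
    intro x
    rw [pr_length]
    have := ha x.length
    simp only [V, Polynomial.eval_add, Polynomial.eval_mul, Polynomial.eval_ofNat,
      Polynomial.eval_one, Polynomial.eval_X]
    omega
  let P : Polynomial ℕ := T.p.comp (2 * qf.comp V)
  refine ⟨Prog.comp cf Prog.fst, Prog.comp cg (Prog.pair Prog.fst (Prog.comp Prog.fst Prog.snd)),
    a, qf.comp V + qg.comp (V + P) + 40 * V + 40 * P + 100, 1, ⟨qa, ha⟩, ?_⟩
  intro x h hh
  have hr : (qf.comp V + qg.comp (V + P) + 40 * V + 40 * P + 100).eval x.length =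
      qf.eval (V.eval x.length) + qg.eval (V.eval x.length + P.eval x.length) +
        40 * V.eval x.length + 40 * P.eval x.length + 100 := by
    simp
  rw [hr, Polynomial.eval_one]
  have hVx := hV x
  set x' := pr (a x.length) x with hx'
  have hx := size_enc_le x'
  constructor
  · intro h1
    have h2 : len h = 0 := by omega
    rw [len_eq_zero] at h2
    subst h2
    obtain ⟨t, ht, he⟩ := hf x'
    have hm := poly_mono qf hVx
    refine ⟨f x', _, ?_, Eval.comp (Eval.fst (node (enc x') leaf)) he⟩
    simp only [size]
    omega
  · intro h1
    cases hh with
    | nil => simp [len] at h1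
    | @cons h' q y t hh' he hy =>
      simp only [len] at h1
      have h2 : len h' = 0 := by omega
      rw [len_eq_zero] at h2
      subst h2
      obtain ⟨t1, ht1, he1⟩ := hf x'
      have hq : q = f x' := by
        have e1 := U_eq he (K := (size (code (Prog.comp cf Prog.fst)) + 10) *
          (t + (t1 + (size (node (enc x') leaf) + 1) + size (node (enc x') leaf) + 1)) + 10) (by
            have := Nat.mul_le_mul_left (size (code (Prog.comp cf Prog.fst)) + 10)
              (show t ≤ t + (t1 + (size (node (enc x') leaf) + 1) + size (node (enc x') leaf) + 1)
                by omega)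
            omega)
        have e2 := U_eq (Eval.comp (Eval.fst (node (enc x') leaf)) he1)
          (K := (size (code (Prog.comp cf Prog.fst)) + 10) *
          (t + (t1 + (size (node (enc x') leaf) + 1) + size (node (enc x') leaf) + 1)) + 10) (by
            have := Nat.mul_le_mul_left (size (code (Prog.comp cf Prog.fst)) + 10)
              (show (size (node (enc x') leaf) + 1) + t1 + size (node (enc x') leaf) + 1 ≤
                t + (t1 + (size (node (enc x') leaf) + 1) + size (node (enc x') leaf) + 1)
                by omega)
            omega)
        rw [e1] at e2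
        have e3 : enc q = enc (f x') := by
          injection e2
        have := congrArg dec e3
        simpa using this
      subst hq
      have hy' : y.length ≤ P.eval x.length := by
        have h3 := hy.1
        have h4 := poly_mono T.p (hlen x')
        have h5 := poly_mono T.p (Nat.mul_le_mul_left 2 (poly_mono qf hVx))
        simp only [P, Polynomial.eval_comp, Polynomial.eval_mul, Polynomial.eval_ofNat]
        omega
      obtain ⟨t2, ht2, he2⟩ := hg x' y
      have hqg : qg.eval (x'.length + y.length) ≤ qg.eval (V.eval x.length + P.eval x.length) :=
        poly_mono qg (by omega)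
      have hys := size_enc_le y
      refine ⟨g x' y, _, ?_, Eval.comp (Eval.pair (Eval.fst (node (enc x') (node (enc y) leaf)))
        (Eval.comp (Eval.snd (node (enc x') (node (enc y) leaf)))
          (Eval.fst (node (enc y) leaf)))) he2, hred x y hy⟩
      simp only [size]
      omega

end Pool.Agent.H65.NU
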