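import Mathlib

set_option autoImplicit false

/-!
# A diagonal argument
-/

namespace Pool.Agent.H65.NU

theorem poly_le_pow (P : Polynomial ℕ) : ∃ d : ℕ, ∀ n : ℕ, P.eval n ≤ (n + 2) ^ d := by
  induction P using Polynomial.induction_on' with
  | add p q hp hq =>
    obtain ⟨d, hd⟩ := hp
    obtain ⟨e, he⟩ := hq
    refine ⟨d + e + 1, fun n => ?_⟩
    rw [Polynomial.eval_add]
    have h1 : (n + 2) ^ d ≤ (n + 2) ^ (d + e) := Nat.pow_le_pow_right (by omega) (by omega)
    have h2 : (n + 2) ^ e ≤ (n + 2) ^ (d + e) := Nat.pow_le_pow_right (by omega) (by omega)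
    have h3 : (n + 2) ^ (d + e + 1) = (n + 2) ^ (d + e) * (n + 2) := pow_succ _ _
    have h4 := hd n
    have h5 := he n
    nlinarith
  | monomial k c =>
    refine ⟨k + c, fun n => ?_⟩
    rw [Polynomial.eval_monomial, pow_add]
    have h1 : c ≤ (n + 2) ^ c :=
      (Nat.lt_two_pow_self).le.trans (Nat.pow_le_pow_left (by omega) c)
    have h2 : n ^ k ≤ (n + 2) ^ k := Nat.pow_le_pow_left (by omega) k
    calc c * n ^ k ≤ (n + 2) ^ c * (n + 2) ^ k := Nat.mul_le_mul h1 h2
      _ = (n + 2) ^ k * (n + 2) ^ c := mul_comm _ _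

/-- Suppose that each `w` in `L` is `k`-small with some bound, for all `k`, and that for each
sequence of elements of `L` of different lengths there is a `k` such that they are `k`-small with a
polynomial bound.  Then for some `k` there is a common polynomial bound. -/
theorem diag {L : Set (List Bool)} {Sm : ℕ → ℕ → List Bool → Prop}
    (hmono : ∀ k D D' w, D ≤ D' → Sm k D w → Sm k D' w)
    (hA : ∀ k, ∀ w ∈ L, ∃ D, Sm k D w)
    (hB : ∀ Ws : Set (List Bool), Ws ⊆ L →
      (∀ w ∈ Ws, ∀ w' ∈ Ws, w.length = w'.length → w = w') →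
      ∃ k, ∃ P : Polynomial ℕ, ∀ w ∈ Ws, Sm k (P.eval w.length) w) :
    ∃ k, ∃ D : Polynomial ℕ, ∀ w ∈ L, Sm k (D.eval w.length) w := by
  by_contra hcon
  push Not at hcon
  have hfin : ∀ k N : ℕ, ∃ C, ∀ w ∈ L, w.length ≤ N → Sm k C w := by
    intro k N
    have hf : {w : List Bool | w.length ≤ N}.Finite := List.finite_length_le Bool N
    have key : ∀ s : Finset (List Bool), ∃ C, ∀ w ∈ s, w ∈ L → Sm k C w := by
      intro s
      classical
      induction s using Finset.induction_on with
      | empty => exact ⟨0, by simp⟩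
      | @insert a s _ ih =>
        obtain ⟨C, hC⟩ := ih
        by_cases ha : a ∈ L
        · obtain ⟨D, hD⟩ := hA k a ha
          refine ⟨max C D, fun w hw hwL => ?_⟩
          rw [Finset.mem_insert] at hw
          rcases hw with rfl | hw
          · exact hmono _ _ _ _ (le_max_right _ _) hD
          · exact hmono _ _ _ _ (le_max_left _ _) (hC w hw hwL)
        · refine ⟨C, fun w hw hwL => ?_⟩
          rw [Finset.mem_insert] at hw
          rcases hw with rfl | hw
          · exact absurd hwL ha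
          · exact hC w hw hwL
    obtain ⟨C, hC⟩ := key hf.toFinset
    exact ⟨C, fun w hw hN => hC w (hf.mem_toFinset.mpr hN) hw⟩
  have hstep : ∀ k d N : ℕ, ∃ w ∈ L, N < w.length ∧ ¬ Sm k ((w.length + 2) ^ d) w := by
    intro k d N
    by_contra h
    push Not at h
    obtain ⟨C, hC⟩ := hfin k N
    obtain ⟨w, hw, hw'⟩ := hcon k ((Polynomial.X + 2) ^ d + Polynomial.C C)
    have e : ((Polynomial.X + 2 : Polynomial ℕ) ^ d + Polynomial.C C).eval w.length =
        (w.length + 2) ^ d + C := by simp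
    rw [e] at hw'
    rcases Nat.lt_or_ge N w.length with h1 | h1
    · exact hw' (hmono _ _ _ _ (by omega) (h w hw h1))
    · exact hw' (hmono _ _ _ _ (by omega) (hC w hw h1))
  choose wf hwL hwN hwS using hstep
  let g : ℕ → ℕ → List Bool := fun j N => wf (Nat.unpair j).1 (Nat.unpair j).2 N
  let σ : ℕ → List Bool := fun j => Nat.rec (g 0 0) (fun j v => g (j + 1) v.length) j
  have hσ : ∀ j, σ (j + 1) = g (j + 1) (σ j).length := fun j => rfl
  have hσL : ∀ j, σ j ∈ L := by
    intro j
    cases j with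
    | zero => exact hwL _ _ _
    | succ j => rw [hσ]; exact hwL _ _ _
  have hσS : ∀ j, ¬ Sm (Nat.unpair j).1 (((σ j).length + 2) ^ (Nat.unpair j).2) (σ j) := by
    intro j
    cases j with
    | zero => exact hwS _ _ _
    | succ j => rw [hσ]; exact hwS _ _ _
  have hlt : StrictMono (fun j => (σ j).length) :=
    strictMono_nat_of_lt_succ (fun j => by rw [hσ]; exact hwN _ _ _)
  obtain ⟨k, P, hP⟩ := hB (Set.range σ) (by rintro _ ⟨d, rfl⟩; exact hσL d) (by
    rintro _ ⟨d, rfl⟩ _ ⟨e, rfl⟩ h
    rw [hlt.injective h])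
  obtain ⟨d, hd⟩ := poly_le_pow P
  have h1 := hσS (Nat.pair k d)
  rw [Nat.unpair_pair] at h1
  exact h1 (hmono _ _ _ _ (hd _) (hP _ ⟨_, rfl⟩))

end Pool.Agent.H65.NU
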