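import Pool.Agent.H65.NU.HistN
import Pool.Agent.H65.NU.Diag

set_option autoImplicit false

/-!
# If there is a complete search problem with advice then Π₂ᵖ is contained in Σ₂ᵖ/poly
-/

namespace Pool.Agent.H65.NU

open Pool.Agent.H88.RO Pool.Agent.H88.RO.Tr Pool.Agent.H65.TS

variable {O : List Bool → Bool}

/-! ### the problems -/

section

variable (Q : List Bool → List Bool → Bool) (p r : Polynomial ℕ)

/-- `y` solves the instance `z` of the problem given by `w` -/
def SolW (w z y : List Bool) : Prop :=
  (prs z).2.length ≤ p.eval w.length →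
    y.length ≤ r.eval (pr w (prs z).2).length ∧ Q (pr w (prs z).2) y = true

/-- the length of the instances of the problem given by a string of length `n` -/
def ell (n : ℕ) : ℕ := p.eval n + n + 1

/-- program for `SolW` -/
def solW (Pp Pr : Tr → Tr) (w z y : Tr) : Tr :=
  cs (dropU (Pp w) (fst (snd (parseT z))))
    (qT Q Pr (prT w (fst (snd (parseT z)))) y) tt

theorem solW_spec {Pp Pr : Tr → Tr} (hp : ∀ v, Pp v = num (p.eval (len v)))
    (hr : ∀ v, Pr v = num (r.eval (len v))) (w z : List Bool) (t : Tr) :
    solW Q Pp Pr (enc w) (enc z) t ≠ leaf ↔ SolW Q p r w z (dec t) := by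
  unfold solW SolW
  rw [snd_parseT, prT_enc]
  by_cases h : (prs z).2.length ≤ p.eval w.length
  · rw [cs_pos _ _ (by rw [dropU_eq_leaf, hp, len_num, len_enc, len_enc]; exact h), qT_spec hr,
      dec_enc]
    simp [h]
  · rw [cs_neg _ _ (by rw [ne_eq, dropU_eq_leaf, hp, len_num, len_enc, len_enc]; exact h)]
    simp [h]

theorem FP.solW' {Q : List Bool → List Bool → Bool} (hQ : PolyTimeRel O Q) {Pp Pr : Tr → Tr}
    (hp : ∀ F, FP O F → FP O (fun v => Pp (F v))) (hr : ∀ F, FP O F → FP O (fun v => Pr (F v)))
    {F G H : Tr → Tr} (hF : FP O F) (hG : FP O G) (hH : FP O H) :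
    FP O (fun v => solW Q Pp Pr (F v) (G v) (H v)) := by
  have h1 := FP.fst' (FP.snd' (FP.parseT' hG))
  have h2 := FP.cs' (FP.dropU' (hp _ hF) h1) (FP.qT' hQ hr (FP.prT' hF h1) hH) (FP.const' tt)
  exact h2

/-- program of the relation -/
def progS (Pp Pr : Tr → Tr) (v : Tr) : Tr :=
  cs (un1T (fst v)) tt (solW Q Pp Pr (snd (un1T (fst v))) (un2T (fst v)) (snd v))

theorem FP_progS {Q : List Bool → List Bool → Bool} (hQ : PolyTimeRel O Q) {Pp Pr : Tr → Tr}
    (hp : ∀ F, FP O F → FP O (fun v => Pp (F v)))
    (hr : ∀ F, FP O F → FP O (fun v => Pr (F v))) : FP O (progS Q Pp Pr) := by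
  have h1 : FP O (fun v => fst v) := FP.fst' FP.id'
  have h2 : FP O (fun v => snd v) := FP.snd' FP.id'
  have h3 := FP.cs' (FP.un1T' h1) (FP.const' tt) (FP.solW' hQ hp hr (FP.snd' (FP.un1T' h1))
    (FP.un2T' h1) h2)
  exact h3

/-- the relation of the problem; the advice is empty or `true :: w` -/
def RW (v y : List Bool) : Prop :=
  un1 v = [] ∨ SolW Q p r (un1 v).tail (un2 v) y

theorem progS_spec {Pp Pr : Tr → Tr} (hp : ∀ v, Pp v = num (p.eval (len v)))
    (hr : ∀ v, Pr v = num (r.eval (len v))) (v y : List Bool) :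
    progS Q Pp Pr (node (enc v) (enc y)) ≠ leaf ↔ RW Q p r v y := by
  unfold progS RW
  simp only [fst_node, snd_node]
  rw [un1T_enc, un2T_enc, snd_enc]
  cases h : un1 v with
  | nil => rw [cs_pos _ _ (by rfl)]; simp
  | cons b w =>
    rw [cs_neg _ _ (by simp [enc]), solW_spec Q p r hp hr, dec_enc]
    simp

end

open Classical in
/-- the advice: the string of `Ws` whose instances have length `l` -/
noncomputable def advS (p : Polynomial ℕ) (Ws : Set (List Bool)) (l : ℕ) : List Bool :=
  if h : ∃ w ∈ Ws, ell p w.length = l then true :: h.choose else []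

theorem advS_cases (p : Polynomial ℕ) (Ws : Set (List Bool)) (l : ℕ) :
    advS p Ws l = [] ∨ ∃ w ∈ Ws, ell p w.length = l ∧ advS p Ws l = true :: w := by
  unfold advS
  split_ifs with h
  · exact Or.inr ⟨h.choose, h.choose_spec.1, h.choose_spec.2, rfl⟩
  · exact Or.inl rfl

theorem ell_injective (p : Polynomial ℕ) : Function.Injective (ell p) := by
  apply StrictMono.injective
  intro a b hab
  have := poly_mono p hab.le
  unfold ell
  omega

theorem advS_eq {p : Polynomial ℕ} {Ws : Set (List Bool)}
    (hd : ∀ w ∈ Ws, ∀ w' ∈ Ws, w.length = w'.length → w = w') {w : List Bool} (hw : w ∈ Ws) :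
    advS p Ws (ell p w.length) = true :: w := by
  unfold advS
  have h : ∃ w' ∈ Ws, ell p w'.length = ell p w.length := ⟨w, hw, rfl⟩
  rw [dif_pos h]
  have h1 := h.choose_spec
  rw [hd _ h1.1 w hw (ell_injective p h1.2)]

open Classical in
/-- the problem given by the strings in `Ws` -/
noncomputable def SW (O : List Bool → Bool) {Q : List Bool → List Bool → Bool}
    (hQ : PolyTimeRel O Q) (p r : Polynomial ℕ) (Ws : Set (List Bool))
    (hg : ∀ w ∈ Ws, ∀ u : List Bool, u.length ≤ p.eval w.length →
      ∃ y : List Bool, y.length ≤ r.eval (pr w u).length ∧ Q (pr w u) y = true) :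
    TFNPpoly O where
  R := fun v y => decide (RW Q p r v y)
  p := r.comp (3 * Polynomial.X + 1)
  adv := advS p Ws
  polyTime := by
    obtain ⟨Pp, hp1, hp2⟩ := exists_polyT p
    obtain ⟨Pr, hr1, hr2⟩ := exists_polyT r
    exact polyTimeRel_of_FP (FP_progS hQ (hp2 O) (hr2 O)) (fun x y => by
      rw [decide_eq_true_eq]; exact progS_spec Q p r hp1 hr1 x y)
  long := by
    refine ⟨Polynomial.X + 1, fun l => ?_⟩
    simp only [Polynomial.eval_add, Polynomial.eval_X, Polynomial.eval_one]
    rcases advS_cases p Ws l with h | ⟨w, _, h1, h2⟩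
    · rw [h]; simp
    · rw [h2, List.length_cons]
      unfold ell at h1
      omega
  total := by
    intro z
    simp only [decide_eq_true_eq, Polynomial.eval_comp, Polynomial.eval_add, Polynomial.eval_mul,
      Polynomial.eval_ofNat, Polynomial.eval_X, Polynomial.eval_one]
    unfold RW
    rw [un1_pr, un2_pr]
    rcases advS_cases p Ws z.length with h | ⟨w, h0, h1, h2⟩
    · exact ⟨[], by simp, Or.inl h⟩
    · rw [h2, List.tail_cons]
      by_cases hu : (prs z).2.length ≤ p.eval w.length
      · obtain ⟨y, hy1, hy2⟩ := hg w h0 _ hu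
        refine ⟨y, hy1.trans (poly_mono r ?_), Or.inr (fun _ => ⟨hy1, hy2⟩)⟩
        rw [pr_length]
        have h3 := prs_le z
        unfold ell at h1
        omega
      · exact ⟨[], by simp, Or.inr (fun h' => absurd h' hu)⟩

open Classical in
theorem SW_sol {Q : List Bool → List Bool → Bool} (hQ : PolyTimeRel O Q) (p r : Polynomial ℕ)
    {Ws : Set (List Bool)}
    (hg : ∀ w ∈ Ws, ∀ u : List Bool, u.length ≤ p.eval w.length →
      ∃ y : List Bool, y.length ≤ r.eval (pr w u).length ∧ Q (pr w u) y = true)
    (hd : ∀ w ∈ Ws, ∀ w' ∈ Ws, w.length = w'.length → w = w') {w z y : List Bool}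
    (hw : w ∈ Ws) (hz : z.length = ell p w.length) (hy : (SW O hQ p r Ws hg).IsSol z y) :
    SolW Q p r w z y := by
  have h1 : RW Q p r (pr (advS p Ws z.length) z) y := of_decide_eq_true hy.2
  unfold RW at h1
  rw [hz, advS_eq hd hw, un1_pr, un2_pr, List.tail_cons] at h1
  rcases h1 with h1 | h1
  · cases h1
  · exact h1

/-! ### small reductions -/

/-- there is a reduction of size at most `D` for the problem given by `w` -/
def Small (Q : List Bool → List Bool → Bool) (p r : Polynomial ℕ) (T : TFNPpoly O) (D : ℕ)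
    (w : List Bool) : Prop :=
  ∃ (cf cg : Tr) (α : List Bool) (K s : ℕ), size cf ≤ D ∧ size cg ≤ D ∧ α.length ≤ D ∧ K ≤ D ∧
    s ≤ D ∧ ∀ z : List Bool, z.length = ell p w.length →
      ¬ BadN O T.IsSol cf cg K s (pr α z) (SolW Q p r w z)

theorem Small.mono {Q : List Bool → List Bool → Bool} {p r : Polynomial ℕ} {T : TFNPpoly O}
    {D D' : ℕ} {w : List Bool} (hD : D ≤ D') (h : Small Q p r T D w) : Small Q p r T D' w := by
  obtain ⟨cf, cg, α, K, s, h1, h2, h3, h4, h5, h6⟩ := h
  exact ⟨cf, cg, α, K, s, h1.trans hD, h2.trans hD, h3.trans hD, h4.trans hD, h5.trans hD, h6⟩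

theorem small_of_reduces {Q : List Bool → List Bool → Bool} (hQ : PolyTimeRel O Q)
    (p r : Polynomial ℕ) {T : TFNPpoly O}
    {Ws : Set (List Bool)}
    (hg : ∀ w ∈ Ws, ∀ u : List Bool, u.length ≤ p.eval w.length →
      ∃ y : List Bool, y.length ≤ r.eval (pr w u).length ∧ Q (pr w u) y = true)
    (hd : ∀ w ∈ Ws, ∀ w' ∈ Ws, w.length = w'.length → w = w')
    (hT : (SW O hQ p r Ws hg).TuringReduces T) :
    ∃ P : Polynomial ℕ, ∀ w ∈ Ws, Small Q p r T (P.eval w.length) w := by
  obtain ⟨cf, cg, a, r', s', ⟨qa, ha⟩, hred⟩ := hT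
  let E : Polynomial ℕ := p + Polynomial.X + 1
  have hE : ∀ n, E.eval n = ell p n := by
    intro n
    simp only [E, Polynomial.eval_add, Polynomial.eval_X, Polynomial.eval_one, ell]
  let KP : Polynomial ℕ := Polynomial.C (size (code cf) + size (code cg) + 10) * r'.comp E + 10
  have hKP : ∀ n, KP.eval n = (size (code cf) + size (code cg) + 10) * r'.eval (ell p n) + 10 := by
    intro n
    simp only [KP, Polynomial.eval_add, Polynomial.eval_mul, Polynomial.eval_C,
      Polynomial.eval_comp, Polynomial.eval_ofNat, hE]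
  refine ⟨Polynomial.C (size (code cf)) + Polynomial.C (size (code cg)) + qa.comp E + KP +
    s'.comp E, fun w hw => ?_⟩
  have hev : (Polynomial.C (size (code cf)) + Polynomial.C (size (code cg)) + qa.comp E + KP +
      s'.comp E).eval w.length = size (code cf) + size (code cg) + qa.eval (ell p w.length) +
      ((size (code cf) + size (code cg) + 10) * r'.eval (ell p w.length) + 10) +
      s'.eval (ell p w.length) := by
    simp only [Polynomial.eval_add, Polynomial.eval_C, Polynomial.eval_comp, hE, hKP]
  rw [hev]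
  have h1 := ha (ell p w.length)
  refine ⟨code cf, code cg, a (ell p w.length),
    (size (code cf) + size (code cg) + 10) * r'.eval (ell p w.length) + 10,
    s'.eval (ell p w.length), by omega, by omega, by omega, by omega, by omega,
    fun z hz hB => ?_⟩
  have h2 := not_badN (hred z)
  rw [hz] at h2
  exact h2 (hB.mono (fun y hy => SW_sol hQ p r hg hd hw hz hy))

/-- a table of strings of a fixed length is computed by a program -/
theorem FP_table (O : List Bool → Bool) (l : ℕ) : ∀ g : List Bool → List Bool,
    ∃ F : Tr → Tr, FP O F ∧ ∀ z : List Bool, z.length = l → F (enc z) = enc (g z) := by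
  induction l with
  | zero =>
    intro g
    refine ⟨fun _ => enc (g []), FP.const' _, fun z hz => ?_⟩
    rw [List.length_eq_zero_iff.mp hz]
  | succ l ih =>
    intro g
    obtain ⟨F0, h0, e0⟩ := ih (fun z => g (false :: z))
    obtain ⟨F1, h1, e1⟩ := ih (fun z => g (true :: z))
    refine ⟨fun v => cs (fst v) (F0 (snd v)) (F1 (snd v)),
      FP.cs' (FP.fst' FP.id') (h0.comp' (FP.snd' FP.id')) (h1.comp' (FP.snd' FP.id')),
      fun z hz => ?_⟩
    cases z with
    | nil => simp at hz
    | cons b z =>
      have hz' : z.length = l := by simpa using hz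
      cases b with
      | false =>
        simp only [enc, fst_node, snd_node]
        rw [cs_pos _ _ (by rfl), e0 z hz']
      | true =>
        simp only [enc, fst_node, snd_node]
        rw [cs_neg _ _ (by simp [bit]), e1 z hz']

/-- the problem given by a single string has a small reduction to each problem -/
theorem small_single {Q : List Bool → List Bool → Bool} (p r : Polynomial ℕ) (T : TFNPpoly O)
    {w : List Bool}
    (hg : ∀ u : List Bool, u.length ≤ p.eval w.length →
      ∃ y : List Bool, y.length ≤ r.eval (pr w u).length ∧ Q (pr w u) y = true) :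
    ∃ D, Small Q p r T D w := by
  have hs : ∀ z : List Bool, ∃ y, SolW Q p r w z y := by
    intro z
    by_cases hu : (prs z).2.length ≤ p.eval w.length
    · obtain ⟨y, hy⟩ := hg _ hu
      exact ⟨y, fun _ => hy⟩
    · exact ⟨[], fun h => absurd h hu⟩
  choose g hg' using hs
  obtain ⟨F, hF1, hF2⟩ := FP_table O (ell p w.length) g
  obtain ⟨c, q, hc⟩ := hF1.comp' (FP.snd' (FP.fst' FP.id'))
  set R := q.eval (4 * (ell p w.length + 1) + 10) with hR
  refine ⟨size (code Prog.id) + size (code c) +
    ((size (code Prog.id) + size (code c) + 10) * R + 10), code Prog.id, code c, [],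
    (size (code Prog.id) + size (code c) + 10) * R + 10, 0, by omega, by omega, by simp,
    by omega, by omega, fun z hz => not_badN fun h _ => ⟨fun h1 => by omega, fun h1 => ?_⟩⟩
  rw [len_eq_zero] at h1
  subst h1
  obtain ⟨t, ht, he⟩ := hc (node (enc (pr [] z)) leaf)
  have e1 : F (snd (fst (node (enc (pr [] z)) leaf))) = enc (g z) := by
    simp only [pr, List.length_nil, List.replicate_zero, List.nil_append, enc, fst_node,
      snd_node]
    exact hF2 z hz
  replace he : Eval O c (node (enc (pr [] z)) leaf) (enc (g z)) t := e1 ▸ he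
  refine ⟨g z, t, ht.trans ?_, he, hg' z⟩
  rw [hR]
  apply poly_mono
  have h2 := size_enc_le (pr [] z)
  rw [pr_length] at h2
  simp only [size, List.length_nil] at h2 ⊢
  omega

/-! ### checking small reductions -/

theorem size_foldl_rstep (u : List Bool) : ∀ st, size (u.foldl rstep st) ≤ size st + 4 * u.length := by
  induction u with
  | nil => intro st; simp
  | cons b u ih =>
    intro st
    rw [List.foldl_cons, List.length_cons]
    refine (ih _).trans ?_
    have : size (rstep st b) ≤ size st + 4 := by
      unfold rstep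
      split_ifs
      · cases st with
        | leaf => simp [size]
        | node a st =>
          cases st with
          | leaf => simp [size]
          | node b st => simp only [fst_node, snd_node, size]; omega
      · simp only [size]; omega
    omega

theorem size_decode (u : List Bool) : size (decode u) ≤ 4 * u.length + 1 := by
  have h1 := size_foldl_rstep u leaf
  have h2 := size_fst_le (u.foldl rstep leaf)
  unfold decode
  simp only [size] at h1
  omega

/-- test for the solutions of `T` -/
def tsT (R : List Bool → List Bool → Bool) (P : Tr → Tr) (θ q y : Tr) : Tr :=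
  cs (dropU (P q) y) (bit (R (dec (prT (fst (dropU q θ)) q)) (dec y))) leaf

theorem tsT_spec (T : TFNPpoly O) {P : Tr → Tr} (hP : ∀ v, P v = num (T.p.eval (len v)))
    (m : ℕ) (q y : List Bool) (hq : q.length < m) :
    tsT T.R P (aL T.adv 0 m) (enc q) (enc y) ≠ leaf ↔ T.IsSol q y := by
  unfold tsT TFNPpoly.IsSol
  rw [aL_dropU _ _ _ hq, prT_enc, dec_enc, dec_enc]
  by_cases h : y.length ≤ T.p.eval q.length
  · rw [cs_pos _ _ (by rw [dropU_eq_leaf, hP, len_num, len_enc, len_enc]; exact h),
      TS.bit_ne_leaf]
    simp [h]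
  · rw [cs_neg _ _ (by rw [ne_eq, dropU_eq_leaf, hP, len_num, len_enc, len_enc]; exact h)]
    simp [h]

theorem FP3_tsT {R : List Bool → List Bool → Bool} (hR : PolyTimeRel O R) {P : Tr → Tr}
    (hP : ∀ F, FP O F → FP O (fun v => P (F v))) : FP3 O (tsT R P) := by
  intro F G H hF hG hH
  have h1 := FP.cs' (FP.dropU' (hP _ hG) hH)
    (FP.rel hR (FP.prT' (FP.fst' (FP.dropU' hG hF)) hG) hH) FP.leaf'
  exact h1

/-- test for the solutions, parameters are in a pair -/
def sfT (Q : List Bool → List Bool → Bool) (Pp Pr : Tr → Tr) (σ _ t : Tr) : Tr :=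
  solW Q Pp Pr (fst σ) (snd σ) t

theorem FP3_sfT {Q : List Bool → List Bool → Bool} (hQ : PolyTimeRel O Q) {Pp Pr : Tr → Tr}
    (hp : ∀ F, FP O F → FP O (fun v => Pp (F v))) (hr : ∀ F, FP O F → FP O (fun v => Pr (F v))) :
    FP3 O (sfT Q Pp Pr) := by
  intro F G H hF _ hH
  exact FP.solW' hQ hp hr (FP.fst' hF) (FP.snd' hF) hH

/-- the core of the check that a reduction fails; `B` is the advice, `W` the string, `Z` the
reduction and `C` the certificate -/
def coreD (TS SF' : Tr → Tr → Tr → Tr) (O : List Bool → Bool) (B W Z C : Tr) : Tr :=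
  cs (dropU (fst (snd B)) (fst (snd (snd (snd Z)))))
    (cs (eqL (norm (fst C)) (snd (snd B))) leaf
      (bN TS SF' O (fst B) (fst Z) (fst (snd Z)) (fst (snd (snd (snd Z))))
        (snd (snd (snd (snd Z)))) (prT (norm (fst (snd (snd Z)))) (norm (fst C)))
        (node W (norm (fst C))) (snd C))) tt

/-- the check -/
def progD (TS SF' : Tr → Tr → Tr → Tr) (O : List Bool → Bool) (v : Tr) : Tr :=
  coreD TS SF' O (decodeT (un1T (un1T (fst v)))) (un2T (un1T (fst v))) (decodeT (un2T (fst v)))
    (decodeT (snd v))

theorem FP_progD {TS SF' : Tr → Tr → Tr → Tr} (hTS : FP3 O TS) (hSF : FP3 O SF') :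
    FP O (progD TS SF' O) := by
  have hv : FP O (fun v => fst v) := FP.fst' FP.id'
  have hy : FP O (fun v => snd v) := FP.snd' FP.id'
  have hB := FP.decodeT' (FP.un1T' (FP.un1T' hv))
  have hW := FP.un2T' (FP.un1T' hv)
  have hZ := FP.decodeT' (FP.un2T' hv)
  have hC := FP.decodeT' hy
  have hz := FP.norm' (FP.fst' hC)
  have hK := FP.fst' (FP.snd' (FP.snd' (FP.snd' hZ)))
  have h1 := FP.cs' (FP.dropU' (FP.fst' (FP.snd' hB)) hK)
    (FP.cs' (FP.eqL' hz (FP.snd' (FP.snd' hB))) FP.leaf'
      (FP.bN' hTS hSF (FP.fst' hB) (FP.fst' hZ) (FP.fst' (FP.snd' hZ)) hK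
        (FP.snd' (FP.snd' (FP.snd' (FP.snd' hZ))))
        (FP.prT' (FP.norm' (FP.fst' (FP.snd' (FP.snd' hZ)))) hz) (FP.node' hW hz)
        (FP.snd' hC))) (FP.const' tt)
  exact h1

/-- the relation of the check -/
def RD (TS SF' : Tr → Tr → Tr → Tr) (O : List Bool → Bool) (v c : List Bool) : Bool :=
  decide (progD TS SF' O (node (enc v) (enc c)) ≠ leaf)

theorem RD_eq {TS SF' : Tr → Tr → Tr → Tr} {v c : List Bool} :
    RD TS SF' O v c = true ↔ progD TS SF' O (node (enc v) (enc c)) ≠ leaf := by
  rw [RD, decide_eq_true_eq]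

attribute [local irreducible] RD

theorem progD_eq (TS SF' : Tr → Tr → Tr → Tr) (B : Tr) (w ρ c : List Bool) :
    progD TS SF' O (node (enc (pr (pr (rpn B) w) ρ)) (enc c)) =
      coreD TS SF' O B (enc w) (decode ρ) (decode c) := by
  unfold progD
  simp only [fst_node, snd_node, un1T_enc, un2T_enc, un1_pr, un2_pr, decodeT_enc, decode_rpn]

/-- **If there are countably many problems in TFNP/poly such that each problem in TFNP/poly reduces
to one of them under Turing reductions with advice, then Π₂ᵖ is contained in Σ₂ᵖ/poly.** -/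
theorem pi2_of_family {T' : ℕ → TFNPpoly O}
    (hT : ∀ S : TFNPpoly O, ∃ k, S.TuringReduces (T' k))
    {L : Set (List Bool)} (hL : InPi2 O L) : InSigma2Poly O L := by
  obtain ⟨M, p, ⟨Q, r, hQ, hM⟩, hLc⟩ := hL
  have hLin : ∀ w ∈ L, ∀ u : List Bool, u.length ≤ p.eval w.length →
      ∃ y : List Bool, y.length ≤ r.eval (pr w u).length ∧ Q (pr w u) y = true := by
    intro w hw u hu
    by_contra hcon
    have h1 : pr w u ∈ M := by
      by_contra h2
      exact hcon ((hM _).mp h2)
    exact (hLc w).mpr ⟨u, hu, h1⟩ hw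
  have hLout : ∀ w ∉ L, ∃ u : List Bool, u.length ≤ p.eval w.length ∧
      ∀ y, ¬ (y.length ≤ r.eval (pr w u).length ∧ Q (pr w u) y = true) := by
    intro w hw
    obtain ⟨u, hu, h1⟩ := (hLc w).mp hw
    exact ⟨u, hu, fun y hy => (hM _).mpr ⟨y, hy⟩ h1⟩
  obtain ⟨k, D, hD⟩ := diag (Sm := fun k => Small Q p r (T' k))
    (fun k D D' w h => Small.mono h) (fun k w hw => small_single p r (T' k) (hLin w hw))
    (fun Ws hWs hd => by
      obtain ⟨k, hk⟩ := hT (SW O hQ p r Ws (fun w hw => hLin w (hWs hw)))
      exact ⟨k, small_of_reduces hQ p r (fun w hw => hLin w (hWs hw)) hd hk⟩)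
  set T := T' k with hTk
  obtain ⟨Pp, hp1, hp2⟩ := exists_polyT p
  obtain ⟨Pr, hr1, hr2⟩ := exists_polyT r
  obtain ⟨Pt, ht1, ht2⟩ := exists_polyT T.p
  obtain ⟨qa, ha⟩ := T.long
  let Bt : ℕ → Tr := fun n =>
    node (aL T.adv 0 (D.eval n + 1)) (node (num (D.eval n)) (num (ell p n)))
  let QQ : Polynomial ℕ := (4 * Polynomial.X + 1) * (4 * T.p + 2) + 4 * Polynomial.X + 20
  let PP : Polynomial ℕ := 10 * D + 20
  have hFP := FP_progD (O := O) (FP3_tsT T.polyTime (ht2 O)) (FP3_sfT hQ (hp2 O) (hr2 O))
  have hTS : ∀ (w : List Bool) (K : Tr), len K ≤ D.eval w.length → ∀ q y : List Bool,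
      q.length ≤ len K → (tsT T.R Pt (fst (Bt w.length)) (enc q) (enc y) ≠ leaf ↔ T.IsSol q y) :=
    fun w K hK q y hq => tsT_spec T ht1 _ q y (by omega)
  have hSF : ∀ (w z : List Bool) (t : Tr), sfT Q Pp Pr (node (enc w) (enc z)) leaf t ≠ leaf ↔
      SolW Q p r w z (dec t) := by
    intro w z t
    unfold sfT
    rw [fst_node, snd_node]
    exact solW_spec Q p r hp1 hr1 w z t
  refine ⟨{v | ∃ ρ : List Bool, ρ.length ≤ PP.eval v.length ∧
      ¬ ∃ c : List Bool, c.length ≤ QQ.eval (pr v ρ).length ∧
        RD (tsT T.R Pt) (sfT Q Pp Pr) O (pr v ρ) c = true}, fun n => rpn (Bt n), ?_, ?_, ?_⟩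
  · refine ⟨{v' | ¬ ∃ c : List Bool, c.length ≤ QQ.eval v'.length ∧
      RD (tsT T.R Pt) (sfT Q Pp Pr) O v' c = true}, PP, ?_, fun v => Iff.rfl⟩
    refine ⟨RD (tsT T.R Pt) (sfT Q Pp Pr) O, QQ, polyTimeRel_of_FP hFP (fun x y => RD_eq.symm),
      fun v => ?_⟩
    rw [Set.mem_compl_iff, Set.mem_ofPred_eq, not_not]
  · refine ⟨(D + 1) * (4 * qa.comp (D + 1) + 2) + 1 + (2 * D + 1) +
      (2 * (p + Polynomial.X + 1) + 1) + 2, fun n => ?_⟩
    rw [rpn_length]
    have h1 := aL_size ha (D.eval n + 1) 0
    rw [zero_add] at h1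
    simp only [Bt, size, size_num, Polynomial.eval_add, Polynomial.eval_mul,
      Polynomial.eval_comp, Polynomial.eval_ofNat, Polynomial.eval_one, Polynomial.eval_X, ell]
    omega
  · intro w
    simp only [Set.mem_ofPred_eq]
    constructor
    · intro hw
      obtain ⟨cf, cg, α, K, s, h1, h2, h3, h4, h5, h6⟩ := hD w hw
      refine ⟨rpn (node cf (node cg (node (enc α) (node (num K) (num s))))), ?_, ?_⟩
      · rw [rpn_length]
        simp only [size, size_num]
        have h7 := size_enc_le α
        have h8 : D.eval w.length ≤ D.eval (pr (rpn (Bt w.length)) w).length :=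
          poly_mono D (by rw [pr_length]; omega)
        simp only [PP, Polynomial.eval_add, Polynomial.eval_mul, Polynomial.eval_ofNat]
        omega
      · rintro ⟨c, _, hc⟩
        rw [RD_eq, progD_eq, decode_rpn] at hc
        unfold coreD at hc
        simp only [fst_node, snd_node] at hc
        have e1 : fst (snd (Bt w.length)) = num (D.eval w.length) := rfl
        have e2 : snd (snd (Bt w.length)) = num (ell p w.length) := rfl
        rw [e1, e2, cs_pos _ _ (by rw [dropU_eq_leaf, len_num, len_num]; exact h4)] at hc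
        by_cases hz : (dec (fst (decode c))).length = ell p w.length
        · rw [cs_neg _ _ ((eqL_spec _ _).mpr (by rw [norm_eq, len_enc, len_num]; exact hz)),
            norm_eq, norm_eq, dec_enc, prT_enc] at hc
          have h7 := bN_sound (hTS w (num K) (by rw [len_num]; exact h4)) (hSF w _) _ _ _ _ _ hc
          rw [len_num, len_num] at h7
          exact h6 _ hz h7
        · rw [cs_pos _ _ (by
            by_contra hcon
            have := (eqL_spec _ _).mp hcon
            rw [norm_eq, len_enc, len_num] at this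
            exact hz this)] at hc
          exact hc rfl
    · rintro ⟨ρ, _, hρ⟩
      by_contra hw
      apply hρ
      obtain ⟨u, hu1, hu2⟩ := hLout w hw
      have e1 : fst (snd (Bt w.length)) = num (D.eval w.length) := rfl
      have e2 : snd (snd (Bt w.length)) = num (ell p w.length) := rfl
      by_cases hK : len (fst (snd (snd (snd (decode ρ))))) ≤ D.eval w.length
      · -- the bad instance
        obtain ⟨j, hj⟩ : ∃ j, j + 1 + u.length = ell p w.length :=
          ⟨ell p w.length - 1 - u.length, by unfold ell; omega⟩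
        set z := List.replicate j true ++ false :: u with hz
        have hzl : z.length = ell p w.length := by
          rw [hz]; simp; omega
        have hzu : (prs z).2 = u := by rw [hz, prs_ones]
        have hno : ∀ y, ¬ SolW Q p r w z y := by
          intro y hy
          unfold SolW at hy
          rw [hzu] at hy
          exact hu2 y (hy hu1)
        have hTt : ∀ q, ∃ y, T.IsSol q y := fun q => T.total q
        have hBad := badN_of_no_sol (O := O) hTt (fst (decode ρ)) (fst (snd (decode ρ)))
          (len (fst (snd (snd (snd (decode ρ)))))) (len (snd (snd (snd (snd (decode ρ))))))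
          (pr (dec (fst (snd (snd (decode ρ))))) z) hno
        obtain ⟨c, hc1, hc2⟩ := bN_complete (hTS w _ hK) (P := T.p) (fun q y h => h.1)
          (hSF w z) _ _ _ _ hBad
        refine ⟨rpn (node (enc z) c), ?_, ?_⟩
        · rw [rpn_length]
          simp only [size]
          have h1 := size_enc_le z
          have h2 : (pr (pr (rpn (Bt w.length)) w) ρ).length = 2 * (2 * (rpn (Bt w.length)).length +
            1 + w.length) + 1 + ρ.length := by rw [pr_length, pr_length]
          have h3 : (rpn (Bt w.length)).length ≥ 2 * D.eval w.length + 2 * ell p w.length := by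
            rw [rpn_length]
            simp only [Bt, size, size_num]
            omega
          have h4 : len (snd (snd (snd (snd (decode ρ))))) ≤ 4 * ρ.length + 1 := by
            have a1 := len_le_size (snd (snd (snd (snd (decode ρ)))))
            have a2 := size_snd_le (snd (snd (snd (decode ρ))))
            have a3 := size_snd_le (snd (snd (decode ρ)))
            have a4 := size_snd_le (snd (decode ρ))
            have a5 := size_snd_le (decode ρ)
            have a6 := size_decode ρ
            omega
          set N := (pr (pr (rpn (Bt w.length)) w) ρ).length with hN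
          have h5 : T.p.eval (len (fst (snd (snd (snd (decode ρ)))))) ≤ T.p.eval N :=
            poly_mono T.p (by omega)
          have h6 : len (snd (snd (snd (snd (decode ρ))))) *
              (4 * T.p.eval (len (fst (snd (snd (snd (decode ρ)))))) + 2) ≤
              (4 * N + 1) * (4 * T.p.eval N + 2) := Nat.mul_le_mul (by omega) (by omega)
          simp only [QQ, Polynomial.eval_add, Polynomial.eval_mul, Polynomial.eval_ofNat,
            Polynomial.eval_X, Polynomial.eval_one]
          omega
        · rw [RD_eq, progD_eq, decode_rpn]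
          unfold coreD
          simp only [fst_node, snd_node]
          rw [e1, e2, cs_pos _ _ (by rw [dropU_eq_leaf, len_num]; exact hK),
            cs_neg _ _ ((eqL_spec _ _).mpr (by rw [norm_eq, dec_enc, len_enc, len_num]
                                               exact hzl)),
            norm_eq, norm_eq, dec_enc, prT_enc]
          exact hc2
      · refine ⟨[], by simp, ?_⟩
        rw [RD_eq, progD_eq]
        unfold coreD
        rw [e1, cs_neg _ _ (by rw [ne_eq, dropU_eq_leaf, len_num]; exact hK)]
        exact tt_ne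

end Pool.Agent.H65.NU
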