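import Pool.Agent.H65.NU.Up

set_option autoImplicit false

/-!
# Failures of Turing reductions with advice
-/

namespace Pool.Agent.H65.NU

open Pool.Agent.H88.RO Pool.Agent.H88.RO.Tr Pool.Agent.H65.TS

variable {O : List Bool → Bool}

/-- possible histories of the reduction with query program `cf` and clock `K` on input `x`;
`CS` is the solution relation of the target problem -/
inductive HN (O : List Bool → Bool) (CS : List Bool → List Bool → Prop) (cf : Tr) (K : ℕ)
    (x : List Bool) : Tr → Prop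
  | nil : HN O CS cf K x leaf
  | cons {h : Tr} {y : List Bool} (hh : HN O CS cf K x h)
      (hq : U O cf (node (enc x) h) K ≠ leaf)
      (hy : CS (dec (snd (U O cf (node (enc x) h) K))) y) : HN O CS cf K x (node (enc y) h)

/-- the reduction fails at `x` -/
def BadN (O : List Bool → Bool) (CS : List Bool → List Bool → Prop) (cf cg : Tr) (K s : ℕ)
    (x : List Bool) (Sol : List Bool → Prop) : Prop :=
  ∃ h, HN O CS cf K x h ∧ Fin O cf cg K s x Sol h

theorem badN_of_no_sol {CS : List Bool → List Bool → Prop} (hT : ∀ q, ∃ y, CS q y)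
    (cf cg : Tr) (K s : ℕ) (x : List Bool) {Sol : List Bool → Prop} (hS : ∀ y, ¬ Sol y) :
    BadN O CS cf cg K s x Sol := by
  by_contra hB
  have key : ∀ m ≤ s, ∃ h, HN O CS cf K x h ∧ len h = m := by
    intro m
    induction m with
    | zero => intro _; exact ⟨leaf, HN.nil, rfl⟩
    | succ m ih =>
      intro hm
      obtain ⟨h, h1, h2⟩ := ih (by omega)
      have h3 : U O cf (node (enc x) h) K ≠ leaf := by
        intro h4
        exact hB ⟨h, h1, Or.inl ⟨by omega, h4⟩⟩
      obtain ⟨y, hy⟩ := hT (dec (snd (U O cf (node (enc x) h) K)))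
      exact ⟨_, HN.cons h1 h3 hy, by simp only [len]; omega⟩
  obtain ⟨h, h1, h2⟩ := key s le_rfl
  exact hB ⟨h, h1, Or.inr ⟨h2, Or.inr (hS _)⟩⟩

theorem BadN.mono {CS : List Bool → List Bool → Prop} {cf cg : Tr} {K s : ℕ} {x : List Bool}
    {Sol Sol' : List Bool → Prop} (h : BadN O CS cf cg K s x Sol) (hS : ∀ y, Sol' y → Sol y) :
    BadN O CS cf cg K s x Sol' := by
  obtain ⟨h0, h1, h2⟩ := h
  refine ⟨h0, h1, ?_⟩
  rcases h2 with h2 | ⟨h2, h3⟩
  · exact Or.inl h2
  · refine Or.inr ⟨h2, ?_⟩
    rcases h3 with h3 | h3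
    · exact Or.inl h3
    · exact Or.inr (fun h4 => h3 (hS _ h4))

/-- correct reductions do not fail -/
theorem not_badN {T : TFNPpoly O} {cf cg : Prog} {r s : ℕ} {x' : List Bool}
    {Sol : List Bool → Prop}
    (hred : ∀ h, HistP T cf x' h →
      (len h < s → ∃ q, ∃ t ≤ r, Eval O cf (node (enc x') h) (enc q) t) ∧
      (len h = s → ∃ w, ∃ t ≤ r, Eval O cg (node (enc x') h) (enc w) t ∧ Sol w)) :
    ¬ BadN O T.IsSol (code cf) (code cg) ((size (code cf) + size (code cg) + 10) * r + 10) s x'
      Sol := by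
  set K := (size (code cf) + size (code cg) + 10) * r + 10 with hK
  have runf : ∀ h, HistP T cf x' h → len h < s → ∃ q, ∃ t,
      Eval O cf (node (enc x') h) (enc q) t ∧
      U O (code cf) (node (enc x') h) K = node leaf (enc q) := by
    intro h hh hl
    obtain ⟨q, t, ht, he⟩ := (hred h hh).1 hl
    refine ⟨q, t, he, U_eq he ?_⟩
    rw [hK]
    exact Nat.add_le_add_right (Nat.mul_le_mul (by omega) ht) _
  have key : ∀ h, HN O T.IsSol (code cf) K x' h → len h ≤ s → HistP T cf x' h := by
    intro h hh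
    induction hh with
    | nil => intro _; exact HistP.nil
    | @cons h y hh hq hy ih =>
      intro hl
      simp only [len] at hl
      have h1 := ih (by omega)
      obtain ⟨q, t, he, hU⟩ := runf h h1 (by omega)
      rw [hU, snd_node, dec_enc] at hy
      exact HistP.cons h1 he hy
  rintro ⟨h, h1, h2⟩
  rcases h2 with ⟨h2, h3⟩ | ⟨h2, h3⟩
  · obtain ⟨q, t, he, hU⟩ := runf h (key h h1 h2.le) h2
    rw [hU] at h3
    cases h3
  · obtain ⟨w, t, ht, he, hw⟩ := (hred h (key h h1 h2.le)).2 h2
    have hU : U O (code cg) (node (enc x') h) K = node leaf (enc w) := by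
      refine U_eq he ?_
      rw [hK]
      exact Nat.add_le_add_right (Nat.mul_le_mul (by omega) ht) _
    rw [hU, snd_node, dec_enc] at h3
    rcases h3 with h3 | h3
    · cases h3
    · exact h3 hw

theorem HN_size {CS : List Bool → List Bool → Prop} {P : Polynomial ℕ}
    (hP : ∀ q y, CS q y → y.length ≤ P.eval q.length) {cf : Tr} {K : ℕ} {x : List Bool} {h : Tr}
    (hh : HN O CS cf K x h) : size h ≤ len h * (4 * P.eval K + 2) + 1 := by
  induction hh with
  | nil => simp [size, len]
  | @cons h y hh hq hy ih =>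
    have h1 := hP _ _ hy
    have h2 := poly_mono P (length_dec_U O cf (node (enc x) h) K)
    have h3 := size_enc_le y
    simp only [size, len]
    have h4 : (len h + 1) * (4 * P.eval K + 2) =
      len h * (4 * P.eval K + 2) + (4 * P.eval K + 2) := by ring
    omega

/-! ### checking histories -/

/-- the validity of the next answer -/
def vN (TS : Tr → Tr → Tr → Tr) (O : List Bool → Bool) (θ cf K X ok h a : Tr) : Tr :=
  cs ok leaf (cs (U O cf (node X h) (len K)) leaf
    (cs (TS θ (norm (snd (U O cf (node X h) (len K)))) a) leaf tt))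

theorem vN_size (TS : Tr → Tr → Tr → Tr) (O : List Bool → Bool) (θ cf K X ok h a : Tr) :
    size (vN TS O θ cf K X ok h a) ≤ 3 := by
  unfold vN cs
  split_ifs <;> simp [size, tt]

theorem vN_spec {TS : Tr → Tr → Tr → Tr} {CS : List Bool → List Bool → Prop} {θ K : Tr}
    (hTS : ∀ q y : List Bool, q.length ≤ len K → (TS θ (enc q) (enc y) ≠ leaf ↔ CS q y))
    (cf : Tr) (x : List Bool) (ok h : Tr) (y : List Bool) :
    vN TS O θ cf K (enc x) ok h (enc y) ≠ leaf ↔
      ok ≠ leaf ∧ U O cf (node (enc x) h) (len K) ≠ leaf ∧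
        CS (dec (snd (U O cf (node (enc x) h) (len K)))) y := by
  unfold vN
  by_cases h1 : ok = leaf
  · rw [cs_pos _ _ h1]; simp [h1]
  · rw [cs_neg _ _ h1]
    by_cases h2 : U O cf (node (enc x) h) (len K) = leaf
    · rw [cs_pos _ _ h2]; simp [h2]
    · rw [cs_neg _ _ h2, norm_eq]
      have h3 := hTS (dec (snd (U O cf (node (enc x) h) (len K)))) y
        (length_dec_U O cf (node (enc x) h) (len K))
      rw [← h3]
      by_cases h5 : TS θ (enc (dec (snd (U O cf (node (enc x) h) (len K))))) (enc y) = leaf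
      · rw [cs_pos _ _ h5]; simp [h5]
      · rw [cs_neg _ _ h5]; simp [h1, h2, h5]

/-- one step of the check; states are
`node (node θ (node cf (node K X))) (node ok (node h c))` -/
def cN (TS : Tr → Tr → Tr → Tr) (O : List Bool → Bool) (s : Tr) : Tr :=
  cs (snd (snd (snd s))) s (node (fst s) (node
    (vN TS O (fst (fst s)) (fst (snd (fst s))) (fst (snd (snd (fst s))))
      (snd (snd (snd (fst s)))) (fst (snd s)) (fst (snd (snd s)))
      (norm (fst (snd (snd (snd s))))))
    (node (node (norm (fst (snd (snd (snd s))))) (fst (snd (snd s)))) (snd (snd (snd (snd s)))))))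

theorem cN_node (TS : Tr → Tr → Tr → Tr) (θ cf K X ok h a c : Tr) :
    cN TS O (node (node θ (node cf (node K X))) (node ok (node h (node a c)))) =
      node (node θ (node cf (node K X))) (node (vN TS O θ cf K X ok h (enc (dec a)))
        (node (node (enc (dec a)) h) c)) := by
  unfold cN
  simp only [fst_node, snd_node, norm_eq]
  rw [cs_neg _ _ (by simp)]

theorem cN_leaf (TS : Tr → Tr → Tr → Tr) (P ok h : Tr) :
    cN TS O (node P (node ok (node h leaf))) = node P (node ok (node h leaf)) := by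
  unfold cN
  simp only [snd_node]
  rw [cs_pos _ _ rfl]

theorem cN_sound {TS : Tr → Tr → Tr → Tr} {CS : List Bool → List Bool → Prop} {θ K : Tr}
    (hTS : ∀ q y : List Bool, q.length ≤ len K → (TS θ (enc q) (enc y) ≠ leaf ↔ CS q y))
    (cf : Tr) (x : List Bool) (c : Tr) (m : ℕ) :
    ∃ ok h c', (cN TS O)^[m] (node (node θ (node cf (node K (enc x)))) (node tt (node leaf c))) =
        node (node θ (node cf (node K (enc x)))) (node ok (node h c')) ∧
      (ok ≠ leaf → HN O CS cf (len K) x h) := by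
  induction m with
  | zero => exact ⟨tt, leaf, c, rfl, fun _ => HN.nil⟩
  | succ m ih =>
    obtain ⟨ok, h, c', h1, h2⟩ := ih
    rw [Function.iterate_succ_apply', h1]
    cases c' with
    | leaf => exact ⟨ok, h, leaf, cN_leaf _ _ _ _, h2⟩
    | node a c'' =>
      refine ⟨_, _, _, cN_node _ _ _ _ _ _ _ _ _, fun h3 => ?_⟩
      obtain ⟨h4, h5, h6⟩ := (vN_spec hTS cf x ok h (dec a)).mp h3
      exact HN.cons (h2 h4) h5 h6

theorem cN_complete {TS : Tr → Tr → Tr → Tr} {CS : List Bool → List Bool → Prop} {θ K : Tr}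
    (hTS : ∀ q y : List Bool, q.length ≤ len K → (TS θ (enc q) (enc y) ≠ leaf ↔ CS q y))
    (cf : Tr) (x : List Bool) {h : Tr} (hh : HN O CS cf (len K) x h) :
    ∃ g : Tr → Tr, ∀ c', size (g c') ≤ size h + size c' ∧ len (g c') = len h + len c' ∧
      ∃ ok, ok ≠ leaf ∧ (cN TS O)^[len h]
        (node (node θ (node cf (node K (enc x)))) (node tt (node leaf (g c')))) =
        node (node θ (node cf (node K (enc x)))) (node ok (node h c')) := by
  induction hh with
  | nil =>
    refine ⟨fun c => c, fun c' => ⟨?_, by simp [len], tt, tt_ne, rfl⟩⟩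
    show size c' ≤ _
    omega
  | @cons h y hh hq hy ih =>
    obtain ⟨g, hg⟩ := ih
    refine ⟨fun c' => g (node (enc y) c'), fun c' => ?_⟩
    obtain ⟨h1, h2, ok, h3, h4⟩ := hg (node (enc y) c')
    refine ⟨?_, ?_, vN TS O θ cf K (enc x) ok h (enc y), ?_, ?_⟩
    · simp only [size] at h1 ⊢; omega
    · simp only [len] at h2 ⊢; omega
    · exact (vN_spec hTS cf x ok h y).mpr ⟨h3, hq, hy⟩
    · rw [len, Function.iterate_succ_apply', h4, cN_node, dec_enc]

/-- test for `BadN`; `c` is a certificate -/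
def bN (TS SF' : Tr → Tr → Tr → Tr) (O : List Bool → Bool) (θ cf cg K S X σ c : Tr) : Tr :=
  cs (fst (snd ((cN TS O)^[len c]
      (node (node θ (node cf (node K X))) (node tt (node leaf c)))))) leaf
    (finT (SF' σ) cf cg O K S X leaf (fst (snd (snd ((cN TS O)^[len c]
      (node (node θ (node cf (node K X))) (node tt (node leaf c))))))))

theorem bN_sound {TS SF' : Tr → Tr → Tr → Tr} {CS : List Bool → List Bool → Prop} {θ K σ : Tr}
    (hTS : ∀ q y : List Bool, q.length ≤ len K → (TS θ (enc q) (enc y) ≠ leaf ↔ CS q y))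
    {Sol : List Bool → Prop} (hSF : ∀ t, SF' σ leaf t ≠ leaf ↔ Sol (dec t)) (cf cg S : Tr)
    (x : List Bool) (c : Tr) (h : bN TS SF' O θ cf cg K S (enc x) σ c ≠ leaf) :
    BadN O CS cf cg (len K) (len S) x Sol := by
  obtain ⟨ok, hh, c', h1, h2⟩ := cN_sound (O := O) hTS cf x c (len c)
  unfold bN at h
  rw [h1] at h
  simp only [fst_node, snd_node] at h
  by_cases h3 : ok = leaf
  · rw [cs_pos _ _ h3] at h
    exact absurd rfl h
  · rw [cs_neg _ _ h3] at h
    exact ⟨hh, h2 h3, (finT_spec hSF cf cg O K S x hh).mp h⟩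

theorem bN_complete {TS SF' : Tr → Tr → Tr → Tr} {CS : List Bool → List Bool → Prop}
    {θ K σ : Tr}
    (hTS : ∀ q y : List Bool, q.length ≤ len K → (TS θ (enc q) (enc y) ≠ leaf ↔ CS q y))
    {P : Polynomial ℕ} (hP : ∀ q y, CS q y → y.length ≤ P.eval q.length)
    {Sol : List Bool → Prop} (hSF : ∀ t, SF' σ leaf t ≠ leaf ↔ Sol (dec t)) (cf cg S : Tr)
    (x : List Bool) (h : BadN O CS cf cg (len K) (len S) x Sol) :
    ∃ c, size c ≤ len S * (4 * P.eval (len K) + 2) + 2 ∧
      bN TS SF' O θ cf cg K S (enc x) σ c ≠ leaf := by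
  obtain ⟨h0, h1, h2⟩ := h
  obtain ⟨g, hg⟩ := cN_complete (O := O) hTS cf x h1
  obtain ⟨h3, h4, ok, h5, h6⟩ := hg leaf
  have hl : len (g leaf) = len h0 := by simpa [len] using h4
  refine ⟨g leaf, ?_, ?_⟩
  · have h7 := HN_size hP h1
    have h8 : len h0 ≤ len S := by
      rcases h2 with ⟨h2, _⟩ | ⟨h2, _⟩ <;> omega
    have h9 : len h0 * (4 * P.eval (len K) + 2) ≤ len S * (4 * P.eval (len K) + 2) :=
      Nat.mul_le_mul_right _ h8
    simp only [size] at h3
    omega
  · unfold bN
    rw [hl, h6]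
    simp only [fst_node, snd_node]
    rw [cs_neg _ _ h5]
    exact (finT_spec hSF cf cg O K S x h0).mpr h2

/-! ### these tests are computable in polynomial time -/

/-- closure of a ternary function on trees -/
def FP3 (O : List Bool → Bool) (TS : Tr → Tr → Tr → Tr) : Prop :=
  ∀ {F G H : Tr → Tr}, FP O F → FP O G → FP O H → FP O (fun v => TS (F v) (G v) (H v))

theorem FP.vN' {TS : Tr → Tr → Tr → Tr} (hTS : FP3 O TS) {θ cf K X ok h a : Tr → Tr}
    (hθ : FP O θ) (hcf : FP O cf) (hK : FP O K) (hX : FP O X)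
    (hok : FP O ok) (hh : FP O h) (ha : FP O a) :
    FP O (fun v => vN TS O (θ v) (cf v) (K v) (X v) (ok v) (h v) (a v)) := by
  have h1 := FP.U' hcf (FP.node' hX hh) hK
  have h2 := FP.norm' (FP.snd' h1)
  have h3 := hTS hθ h2 ha
  have h4 := FP.cs' hok FP.leaf' (FP.cs' h1 FP.leaf' (FP.cs' h3 FP.leaf' (FP.const' tt)))
  exact h4

theorem FP.cN' {TS : Tr → Tr → Tr → Tr} (hTS : FP3 O TS) : FP O (cN TS O) := by
  have h1 : FP O (fun s => fst s) := FP.fst' FP.id'
  have h2 : FP O (fun s => snd s) := FP.snd' FP.id'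
  have h3 := FP.snd' h2
  have h4 := FP.snd' h3
  have h5 := FP.norm' (FP.fst' h4)
  have h6 := FP.vN' hTS (FP.fst' h1) (FP.fst' (FP.snd' h1)) (FP.fst' (FP.snd' (FP.snd' h1)))
    (FP.snd' (FP.snd' (FP.snd' h1))) (FP.fst' h2) (FP.fst' h3) h5
  have h7 := FP.cs' h4 FP.id' (FP.node' h1 (FP.node' h6 (FP.node' (FP.node' h5 (FP.fst' h3))
    (FP.snd' h4))))
  exact h7

theorem cN_bound (TS : Tr → Tr → Tr → Tr) (x : Tr)
    (i : ℕ) : (cN TS O)^[i] x = x ∨
      ∃ ok h c, (cN TS O)^[i] x = node (fst x) (node ok (node h c)) ∧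
        size ok ≤ 3 ∧ size h + 5 * size c ≤ 6 * size x := by
  induction i with
  | zero => exact Or.inl rfl
  | succ i ih =>
    rw [Function.iterate_succ_apply']
    rcases ih with ih | ⟨ok, h, c, h1, h2, h3⟩
    · rw [ih]
      unfold cN
      by_cases hc : snd (snd (snd x)) = leaf
      · rw [cs_pos _ _ hc]; exact Or.inl rfl
      · rw [cs_neg _ _ hc]
        refine Or.inr ⟨_, _, _, rfl, vN_size _ _ _ _ _ _ _ _ _, ?_⟩
        have e1 : size (norm (fst (snd (snd (snd x))))) ≤ 4 * size (fst (snd (snd (snd x)))) + 1 := by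
          rw [norm_eq]
          have a1 := size_enc_le (dec (fst (snd (snd (snd x)))))
          rw [length_dec] at a1
          have a2 := len_le_size (fst (snd (snd (snd x))))
          omega
        have e2 : size (fst (snd (snd x))) + size (fst (snd (snd (snd x)))) +
            size (snd (snd (snd (snd x)))) + 2 ≤ size x := by
          cases x with
          | leaf => simp at hc
          | node a x =>
            cases x with
            | leaf => simp at hc
            | node b x =>
              cases x with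
              | leaf => simp at hc
              | node d x =>
                cases x with
                | leaf => simp at hc
                | node e x => simp only [snd_node, fst_node, size]; omega
        simp only [size]
        omega
    · rw [h1]
      unfold cN
      simp only [snd_node, fst_node]
      by_cases hc : c = leaf
      · rw [cs_pos _ _ hc]; exact Or.inr ⟨ok, h, c, rfl, h2, h3⟩
      · rw [cs_neg _ _ hc]
        refine Or.inr ⟨_, _, _, rfl, vN_size _ _ _ _ _ _ _ _ _, ?_⟩
        cases c with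
        | leaf => exact absurd rfl hc
        | node a c =>
          simp only [fst_node, snd_node, norm_eq, size] at h3 ⊢
          have a1 := size_enc_le (dec a)
          rw [length_dec] at a1
          have a2 := len_le_size a
          omega

theorem FP.bN' {TS SF' : Tr → Tr → Tr → Tr} (hTS : FP3 O TS) (hSF : FP3 O SF')
    {θ cf cg K S X σ c : Tr → Tr} (hθ : FP O θ) (hcf : FP O cf) (hcg : FP O cg) (hK : FP O K)
    (hS : FP O S) (hX : FP O X) (hσ : FP O σ) (hc : FP O c) :
    FP O (fun v => bN TS SF' O (θ v) (cf v) (cg v) (K v) (S v) (X v) (σ v) (c v)) := by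
  have h1 : FP O (fun v => (cN TS O)^[len (c v)]
      (node (node (θ v) (node (cf v) (node (K v) (X v)))) (node tt (node leaf (c v))))) := by
    refine FP.iterate' (FP.cN' hTS) hc (FP.node' (FP.node' hθ (FP.node' hcf (FP.node' hK hX)))
      (FP.node' (FP.const' tt) (FP.node' FP.leaf' hc))) ⟨7 * Polynomial.X + 10,
        fun n x i _ => ?_⟩
    simp only [Polynomial.eval_add, Polynomial.eval_mul, Polynomial.eval_ofNat,
      Polynomial.eval_X]
    rcases cN_bound (O := O) TS x i with h | ⟨ok, h, c, h1, h2, h3⟩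
    · rw [h]; omega
    · rw [h1]
      simp only [size]
      have := size_fst_le x
      omega
  have h2 := FP.fst' (FP.snd' (FP.snd' h1))
  have h3 := FP.U' hcf (FP.node' hX h2) hK
  have h4 := FP.U' hcg (FP.node' hX h2) hK
  have h5 := FP.cs' (FP.fst' (FP.snd' h1)) FP.leaf'
    (FP.cs' (FP.dropU' hS (FP.node' FP.leaf' h2)) (FP.cs' h3 (FP.const' tt) FP.leaf')
      (FP.cs' (FP.dropU' hS h2) (FP.cs' h4 (FP.const' tt)
        (FP.cs' (hSF hσ FP.leaf' (FP.snd' h4)) (FP.const' tt) FP.leaf')) FP.leaf'))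
  exact h5

end Pool.Agent.H65.NU
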