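import Pool.Agent.H65.NU.Defs

set_option autoImplicit false

/-!
# Programs for pairs of strings and for lists of advice
-/

namespace Pool.Agent.H65.NU

open Pool.Agent.H88.RO Pool.Agent.H88.RO.Tr Pool.Agent.H65.TS

variable {O : List Bool → Bool}

/-- move one element -/
def tkstep (s : Tr) : Tr :=
  if fst s = leaf then s else node (snd (fst s)) (node (fst (fst s)) (snd s))

theorem size_tkstep (s : Tr) : size (tkstep s) ≤ size s + 4 := by
  unfold tkstep
  split_ifs with h
  · omega
  · cases s with
    | leaf => simp at h
    | node a b =>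
      cases a with
      | leaf => simp at h
      | node c d => simp only [fst_node, snd_node, size]; omega

theorem tkstep_iter (n : ℕ) (w acc : List Bool) :
    tkstep^[n] (node (enc w) (enc acc)) = node (enc (w.drop n)) (enc ((w.take n).reverse ++ acc)) := by
  induction n generalizing w acc with
  | zero => simp
  | succ n ih =>
    rw [Function.iterate_succ_apply]
    cases w with
    | nil =>
      have e : tkstep (node (enc []) (enc acc)) = node (enc []) (enc acc) := by
        simp [tkstep, enc]
      rw [e, ih]
      simp
    | cons b w =>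
      have e : tkstep (node (enc (b :: w)) (enc acc)) = node (enc w) (enc (b :: acc)) := by
        simp [tkstep, enc]
      rw [e, ih]
      simp

theorem FP.tk {N X : Tr → Tr} (hF : FP O N) (hX : FP O X) :
    FP O (fun v => tkstep^[len (N v)] (X v)) := by
  have hd : FP O (fun s => tkstep s) := by
    unfold tkstep
    (repeat (first | assumption | with_reducible exact FP.id' | with_reducible apply FP.fst' | with_reducible apply FP.snd' | with_reducible apply FP.node' | with_reducible apply FP.ite' | with_reducible exact FP.const' _))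
  exact FP.iterate_add hd hF hX 4 size_tkstep

/-- the first elements of a string -/
def tkT (n v : Tr) : Tr := revN (snd (tkstep^[len n] (node v leaf)))

theorem tkT_enc (n : Tr) (w : List Bool) : tkT n (enc w) = enc (w.take (len n)) := by
  have h := tkstep_iter (len n) w []
  rw [List.append_nil] at h
  have e : (leaf : Tr) = enc [] := rfl
  rw [tkT, e, h, snd_node, revN_eq, dec_enc, List.reverse_reverse]

theorem FP.tkT' {F G : Tr → Tr} (hF : FP O F) (hG : FP O G) : FP O (fun v => tkT (F v) (G v)) :=
  FP.revN' (FP.snd' (FP.tk (N := F) hF (FP.node' hG FP.leaf')))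

/-- concatenation of strings -/
def appT (a x : Tr) : Tr := snd (tkstep^[len a] (node (revN a) x))

theorem appT_enc (a x : List Bool) : appT (enc a) (enc x) = enc (a ++ x) := by
  rw [appT, revN_eq, dec_enc, len_enc, tkstep_iter, snd_node]
  congr 1
  rw [List.take_of_length_le (by simp), List.reverse_reverse]

theorem FP.appT' {F G : Tr → Tr} (hF : FP O F) (hG : FP O G) :
    FP O (fun v => appT (F v) (G v)) :=
  FP.snd' (FP.tk (N := F) hF (FP.node' (FP.revN' hF) hG))

/-- pairs of strings -/
def prT (a x : Tr) : Tr := onesPre a (node leaf (appT a x))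

theorem prT_enc (a x : List Bool) : prT (enc a) (enc x) = enc (pr a x) := by
  have e1 : ∀ v : List Bool, node leaf (enc v) = enc (false :: v) := fun v => rfl
  rw [prT, appT_enc, e1, onesPre_enc, len_enc, pr]

theorem FP.prT' {F G : Tr → Tr} (hF : FP O F) (hG : FP O G) : FP O (fun v => prT (F v) (G v)) :=
  FP.onesPre' hF (FP.node' FP.leaf' (FP.appT' hF hG))

/-- the first component of a pair -/
def un1 (v : List Bool) : List Bool := (prs v).2.take (prs v).1
/-- the second component of a pair -/
def un2 (v : List Bool) : List Bool := (prs v).2.drop (prs v).1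

@[simp] theorem un1_pr (a x : List Bool) : un1 (pr a x) = a := by
  simp [un1, pr, prs_ones]
@[simp] theorem un2_pr (a x : List Bool) : un2 (pr a x) = x := by
  simp [un2, pr, prs_ones]

theorem un1_length (v : List Bool) : (un1 v).length ≤ v.length := by
  have := prs_le v
  simp only [un1, List.length_take]
  omega
theorem un2_length (v : List Bool) : (un2 v).length ≤ v.length := by
  have := prs_le v
  simp only [un2, List.length_drop]
  omega

/-- program for `un1` -/
def un1T (v : Tr) : Tr := tkT (fst (parseT v)) (fst (snd (parseT v)))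
/-- program for `un2` -/
def un2T (v : Tr) : Tr := dropU (fst (parseT v)) (fst (snd (parseT v)))

@[simp] theorem un1T_enc (v : List Bool) : un1T (enc v) = enc (un1 v) := by
  rw [un1T, fst_parseT, snd_parseT, tkT_enc, len_num, un1]
@[simp] theorem un2T_enc (v : List Bool) : un2T (enc v) = enc (un2 v) := by
  rw [un2T, fst_parseT, snd_parseT, dropU_enc, len_num, un2]

theorem FP.un1T' {F : Tr → Tr} (hF : FP O F) : FP O (fun v => un1T (F v)) :=
  FP.tkT' (FP.fst' (FP.parseT' hF)) (FP.fst' (FP.snd' (FP.parseT' hF)))
theorem FP.un2T' {F : Tr → Tr} (hF : FP O F) : FP O (fun v => un2T (F v)) :=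
  FP.dropU' (FP.fst' (FP.parseT' hF)) (FP.fst' (FP.snd' (FP.parseT' hF)))

/-! ### lists of advice -/

/-- the list of the strings `a j`, `k ≤ j < k + m` -/
def aL (a : ℕ → List Bool) : ℕ → ℕ → Tr
  | _, 0 => leaf
  | k, m + 1 => node (enc (a k)) (aL a (k + 1) m)

theorem aL_get (a : ℕ → List Bool) (j : ℕ) : ∀ k m, j < m →
    fst (snd^[j] (aL a k m)) = enc (a (k + j)) := by
  induction j with
  | zero =>
    intro k m hm
    cases m with
    | zero => omega
    | succ m => rfl
  | succ j ih =>
    intro k m hm
    cases m with
    | zero => omega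
    | succ m =>
      rw [Function.iterate_succ_apply]
      show fst (snd^[j] (aL a (k + 1) m)) = _
      rw [ih (k + 1) m (by omega)]
      congr 2
      ring

theorem aL_dropU (a : ℕ → List Bool) (m : ℕ) (w : List Bool) (h : w.length < m) :
    fst (dropU (enc w) (aL a 0 m)) = enc (a w.length) := by
  rw [dropU, len_enc, aL_get a _ 0 m h, zero_add]

theorem aL_size {a : ℕ → List Bool} {q : Polynomial ℕ} (h : ∀ n, (a n).length ≤ q.eval n)
    (m : ℕ) : ∀ k, size (aL a k m) ≤ m * (4 * q.eval (k + m) + 2) + 1 := by
  induction m with
  | zero => intro k; simp [aL, size]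
  | succ m ih =>
    intro k
    have h1 := ih (k + 1)
    have h2 := size_enc_le (a k)
    have h3 := h k
    have h4 : q.eval k ≤ q.eval (k + (m + 1)) := poly_mono q (by omega)
    rw [show k + 1 + m = k + (m + 1) by ring] at h1
    simp only [aL, size]
    have e : (m + 1) * (4 * q.eval (k + (m + 1)) + 2) =
      m * (4 * q.eval (k + (m + 1)) + 2) + (4 * q.eval (k + (m + 1)) + 2) := by ring
    omega

/-- every relation computable in polynomial time is computed by a numbered machine -/
theorem exists_index_rel {R : List Bool → List Bool → Bool} (hR : PolyTimeRel O R) :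
    ∃ (i : ℕ) (k : Polynomial ℕ), ∀ (v y : List Bool) (K : ℕ), k.eval (v.length + y.length) ≤ K →
      (snd (U O (mach i) (node (enc v) (enc y)) K) ≠ leaf ↔ R v y = true) := by
  obtain ⟨c, q, hc⟩ := hR
  refine ⟨sval (rpn (code c)), Polynomial.C (size (code c) + 10) * q + 10, fun v y K hK => ?_⟩
  rw [mach_sval]
  obtain ⟨t, ht, he⟩ := hc v y
  rw [U_eq he, snd_node, TS.bit_ne_leaf]
  refine le_trans ?_ hK
  simp only [Polynomial.eval_add, Polynomial.eval_mul, Polynomial.eval_C, Polynomial.eval_ofNat]
  exact Nat.add_le_add_right (Nat.mul_le_mul_left _ ht) _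

end Pool.Agent.H65.NU
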