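import Pool.Agent.H65.NU.Pair

set_option autoImplicit false

/-!
# If Π₂ᵖ is contained in Σ₂ᵖ/poly then there is a complete search problem with advice
-/

namespace Pool.Agent.H65.NU

open Pool.Agent.H88.RO Pool.Agent.H88.RO.Tr Pool.Agent.H65.TS

variable {O : List Bool → Bool}

/-- the input length of the problem described by `w` -/
def wN (w : List Bool) : ℕ := (prs (zx w)).1
/-- the advice of the problem described by `w` -/
def wa (w : List Bool) : List Bool := (prs (zx w)).2
/-- program for `wN` -/
def wNT (w : Tr) : Tr := fst (parseT (tx w))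
/-- program for `wa` -/
def waT (w : Tr) : Tr := fst (snd (parseT (tx w)))

@[simp] theorem wNT_enc (w : List Bool) : wNT (enc w) = num (wN w) := by
  rw [wNT, tx_enc, fst_parseT, wN]
@[simp] theorem waT_enc (w : List Bool) : waT (enc w) = enc (wa w) := by
  rw [waT, tx_enc, snd_parseT, wa]
theorem FP.wNT' {F : Tr → Tr} (hF : FP O F) : FP O (fun v => wNT (F v)) :=
  FP.fst' (FP.parseT' (FP.tx' hF))
theorem FP.waT' {F : Tr → Tr} (hF : FP O F) : FP O (fun v => waT (F v)) :=
  FP.fst' (FP.snd' (FP.parseT' (FP.tx' hF)))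

theorem wN_le (w : List Bool) : wN w ≤ w.length := by
  have h1 := z_le w
  have h2 := prs_le (zx w)
  unfold wN
  omega

/-- `y` solves `x` in the problem described by `w` -/
def AccW (O : List Bool → Bool) (w x y : List Bool) : Prop :=
  Usol O (zi w) (zK w) (zN w) (pr (wa w) x) y

/-- program for `AccW` -/
def accT (O : List Bool → Bool) (w x y : Tr) : Tr :=
  usT O (ti w) (tK w) (tN w) (prT (waT w) x) y

theorem accT_spec (w x y : List Bool) : accT O (enc w) (enc x) (enc y) ≠ leaf ↔ AccW O w x y := by
  rw [accT, ti_enc, tK_enc, tN_enc, waT_enc, prT_enc, usT_spec]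
  simp only [len_num]
  rfl

theorem FP.accT' {F G H : Tr → Tr} (hF : FP O F) (hG : FP O G) (hH : FP O H) :
    FP O (fun v => accT O (F v) (G v) (H v)) :=
  FP.usT' (FP.ti' hF) (FP.tK' hF) (FP.tN' hF) (FP.prT' (FP.waT' hF) hG) hH

/-- the strings describing total problems -/
def Tot (O : List Bool → Bool) : Set (List Bool) :=
  {w | ∀ x : List Bool, x.length = wN w → ∃ y, AccW O w x y}

open Classical in
theorem inPi2_Tot : InPi2 O (Tot O) := by
  refine ⟨{v | (un2 v).length = wN (un1 v) ∧ ∀ y, ¬ AccW O (un1 v) (un2 v) y}, Polynomial.X,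
    ?_, fun w => ?_⟩
  · refine ⟨fun v y => decide (¬ (un2 v).length = wN (un1 v) ∨ AccW O (un1 v) (un2 v) y),
      Polynomial.X, ?_, fun v => ?_⟩
    · have hv : FP O (fun v => fst v) := FP.fst' FP.id'
      have hy : FP O (fun v => snd v) := FP.snd' FP.id'
      have h1 := FP.cs' (FP.eqL' (FP.un2T' hv) (FP.wNT' (FP.un1T' hv))) (FP.const' tt)
        (FP.accT' (FP.un1T' hv) (FP.un2T' hv) hy)
      refine polyTimeRel_of_FP h1 (fun v y => ?_)
      rw [decide_eq_true_eq]
      simp only [fst_node, snd_node]
      rw [un1T_enc, un2T_enc, wNT_enc]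
      by_cases h : (un2 v).length = wN (un1 v)
      · rw [cs_neg _ _ ((eqL_spec _ _).mpr (by rw [len_enc, len_num]; exact h)), accT_spec]
        simp [h]
      · rw [cs_pos _ _ (by
          by_contra hcon
          have := (eqL_spec _ _).mp hcon
          rw [len_enc, len_num] at this
          exact h this)]
        simp [h]
    · simp only [Polynomial.eval_X, decide_eq_true_eq, Set.mem_compl_iff, Set.mem_ofPred_eq]
      constructor
      · intro h
        by_cases h1 : (un2 v).length = wN (un1 v)
        · have h2 : ∃ y, AccW O (un1 v) (un2 v) y := by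
            by_contra hcon
            push Not at hcon
            exact h ⟨h1, hcon⟩
          obtain ⟨y, hy⟩ := h2
          refine ⟨y, ?_, Or.inr hy⟩
          have h3 := hy.1
          have h4 := z_le (un1 v)
          have h5 := un1_length v
          omega
        · exact ⟨[], by simp, Or.inl h1⟩
      · rintro ⟨y, _, h1⟩ ⟨h2, h3⟩
        rcases h1 with h1 | h1
        · exact h1 h2
        · exact h3 y h1
  · simp only [Polynomial.eval_X, Set.mem_compl_iff, Set.mem_ofPred_eq, un1_pr, un2_pr, Tot]
    constructor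
    · intro h
      push Not at h
      obtain ⟨x, h1, h2⟩ := h
      exact ⟨x, by have := wN_le w; omega, h1, h2⟩
    · rintro ⟨x, _, h1, h2⟩ h3
      obtain ⟨y, hy⟩ := h3 x h1
      exact h2 y hy

section

variable (a : ℕ → List Bool) (R2 : List Bool → List Bool → Bool) (p1 p2 : Polynomial ℕ)

/-- the solutions of the complete problem; instances are `z = pr w (pr u x)` -/
def Tsol (O : List Bool → Bool) (z y : List Bool) : Prop :=
  (un2 (un2 z)).length = wN (un1 z) →
  (un1 (un2 z)).length ≤ p1.eval (pr (a (un1 z).length) (un1 z)).length →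
  ∃ b y', y = b :: y' ∧ ((b = false ∧ AccW O (un1 z) (un2 (un2 z)) y') ∨
    (b = true ∧ y'.length ≤ p2.eval (pr (pr (a (un1 z).length) (un1 z)) (un1 (un2 z))).length ∧
      R2 (pr (pr (a (un1 z).length) (un1 z)) (un1 (un2 z))) y' = true))

/-- the core of the program of the complete problem -/
def coreU (O : List Bool → Bool) (P1 P2 : Tr → Tr) (w u x vv y : Tr) : Tr :=
  cs (eqL x (wNT w)) tt (cs (dropU (P1 vv) u) (cs y leaf (cs (fst y) (accT O w x (snd y))
    (cs (dropU (P2 (prT vv u)) (snd y)) (bit (R2 (dec (prT vv u)) (dec (snd y)))) leaf))) tt)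

theorem coreU_spec {P1 P2 : Tr → Tr} (h1 : ∀ v, P1 v = num (p1.eval (len v)))
    (h2 : ∀ v, P2 v = num (p2.eval (len v))) (z y : List Bool) :
    coreU R2 O P1 P2 (enc (un1 z)) (enc (un1 (un2 z))) (enc (un2 (un2 z)))
      (prT (enc (a (un1 z).length)) (enc (un1 z))) (enc y) ≠ leaf ↔ Tsol a R2 p1 p2 O z y := by
  unfold coreU Tsol
  by_cases h3 : (un2 (un2 z)).length = wN (un1 z)
  · rw [cs_neg _ _ ((eqL_spec _ _).mpr (by rw [len_enc, wNT_enc, len_num]; exact h3))]
    simp only [h3, true_imp_iff]
    by_cases h4 : (un1 (un2 z)).length ≤ p1.eval (pr (a (un1 z).length) (un1 z)).length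
    · rw [cs_pos _ _ (by rw [dropU_eq_leaf, h1, prT_enc, len_num, len_enc, len_enc]; exact h4)]
      simp only [h4, true_imp_iff]
      cases y with
      | nil => simp [enc]
      | cons b y =>
        rw [cs_neg _ _ (by simp [enc]), ex_cons]
        have e1 : fst (enc (b :: y)) = bit b := rfl
        have e2 : snd (enc (b :: y)) = enc y := rfl
        rw [e1, e2]
        cases b with
        | false =>
          rw [bit_false, cs_leaf, accT_spec]
          simp
        | true =>
          rw [bit_true, cs_tt, prT_enc, prT_enc]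
          simp only [Bool.true_eq_false, false_and, true_and, false_or, dec_enc]
          by_cases h5 : y.length ≤
              p2.eval (pr (pr (a (un1 z).length) (un1 z)) (un1 (un2 z))).length
          · rw [cs_pos _ _ (by rw [dropU_eq_leaf, h2, len_num, len_enc, len_enc]; exact h5),
              TS.bit_ne_leaf]
            simp [h5]
          · rw [cs_neg _ _ (by rw [ne_eq, dropU_eq_leaf, h2, len_num, len_enc, len_enc]
                               exact h5)]
            simp [h5]
    · rw [cs_neg _ _ (by rw [ne_eq, dropU_eq_leaf, h1, prT_enc, len_num, len_enc, len_enc]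
                         exact h4)]
      simp [h4]
  · rw [cs_pos _ _ (by
      by_contra hcon
      have := (eqL_spec _ _).mp hcon
      rw [len_enc, wNT_enc, len_num] at this
      exact h3 this)]
    simp [h3]

/-- the program of the complete problem -/
def progU (O : List Bool → Bool) (P1 P2 : Tr → Tr) (v : Tr) : Tr :=
  coreU R2 O P1 P2 (un1T (un2T (fst v))) (un1T (un2T (un2T (fst v))))
    (un2T (un2T (un2T (fst v))))
    (prT (fst (dropU (un1T (un2T (fst v))) (decodeT (un1T (fst v))))) (un1T (un2T (fst v))))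
    (snd v)

theorem FP_progU {P1 P2 : Tr → Tr} (hR2 : PolyTimeRel O R2)
    (h1 : ∀ F, FP O F → FP O (fun v => P1 (F v))) (h2 : ∀ F, FP O F → FP O (fun v => P2 (F v))) :
    FP O (progU R2 O P1 P2) := by
  have hv : FP O (fun v => fst v) := FP.fst' FP.id'
  have hy : FP O (fun v => snd v) := FP.snd' FP.id'
  have hz := FP.un2T' hv
  have hw := FP.un1T' hz
  have hu := FP.un1T' (FP.un2T' hz)
  have hx := FP.un2T' (FP.un2T' hz)
  have hvv := FP.prT' (FP.fst' (FP.dropU' hw (FP.decodeT' (FP.un1T' hv)))) hw
  have hvu := FP.prT' hvv hu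
  have h3 := FP.cs' (FP.eqL' hx (FP.wNT' hw)) (FP.const' tt) (FP.cs' (FP.dropU' (h1 _ hvv) hu)
    (FP.cs' hy FP.leaf' (FP.cs' (FP.fst' hy) (FP.accT' hw hx (FP.snd' hy))
      (FP.cs' (FP.dropU' (h2 _ hvu) (FP.snd' hy)) (FP.rel hR2 hvu (FP.snd' hy)) FP.leaf')))
    (FP.const' tt))
  exact h3

theorem progU_spec {P1 P2 : Tr → Tr} (h1 : ∀ v, P1 v = num (p1.eval (len v)))
    (h2 : ∀ v, P2 v = num (p2.eval (len v))) (z y : List Bool) :
    progU R2 O P1 P2 (node (enc (pr (rpn (aL a 0 (z.length + 1))) z)) (enc y)) ≠ leaf ↔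
      Tsol a R2 p1 p2 O z y := by
  rw [← coreU_spec a R2 p1 p2 h1 h2 z y, progU]
  simp only [fst_node, snd_node]
  simp only [un2T_enc, un1T_enc, un1_pr, un2_pr, decodeT_enc, decode_rpn]
  rw [aL_dropU]
  have := un1_length z
  omega

end

/-- the relation of the complete problem -/
def RU (O : List Bool → Bool) (R2 : List Bool → List Bool → Bool) (P1 P2 : Tr → Tr)
    (v y : List Bool) : Bool := decide (progU R2 O P1 P2 (node (enc v) (enc y)) ≠ leaf)

theorem RU_eq {R2 : List Bool → List Bool → Bool} {P1 P2 : Tr → Tr} {v y : List Bool} :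
    RU O R2 P1 P2 v y = true ↔ progU R2 O P1 P2 (node (enc v) (enc y)) ≠ leaf := by
  rw [RU, decide_eq_true_eq]

attribute [local irreducible] RU

theorem polyTimeFun_red : PolyTimeFun O
    (fun v => pr (un1 (un1 v)) (pr (un2 (un1 v)) (un2 v))) := by
  have hv : FP O (fun v => v) := FP.id'
  have h1 := FP.prT' (FP.un1T' (FP.un1T' hv)) (FP.prT' (FP.un2T' (FP.un1T' hv)) (FP.un2T' hv))
  refine polyTimeFun_of_FP (F := fun v => prT (un1T (un1T v)) (prT (un2T (un1T v)) (un2T v)))
    h1 (fun v => ?_)
  simp only [un1T_enc, un2T_enc, prT_enc]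

theorem polyTimeFun₂_tail : PolyTimeFun₂ O (fun _ y => y.tail) :=
  polyTimeFun₂_of_FP (F := fun v => snd (snd v)) (FP.snd' (FP.snd' FP.id'))
    (fun x y => by rw [snd_node, snd_enc])

open Classical in
/-- If Π₂ᵖ is contained in Σ₂ᵖ/poly, then there is a complete problem in TFNP/poly. -/
theorem complete_of_pi2 (h : ∀ L, InPi2 O L → InSigma2Poly O L) :
    ∃ T : TFNPpoly O, ∀ S : TFNPpoly O, S.Reduces T := by
  obtain ⟨L', a, ⟨M1, p1, ⟨R2, p2, hR2, hM1⟩, hL'⟩, ⟨qa, ha⟩, hL⟩ := h _ inPi2_Tot
  obtain ⟨P1, hP1, hP1'⟩ := exists_polyT p1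
  obtain ⟨P2, hP2, hP2'⟩ := exists_polyT p2
  let T : TFNPpoly O :=
    { R := RU O R2 P1 P2
      p := Polynomial.X + p2.comp (4 * qa + 3 * Polynomial.X + 3) + 1
      adv := fun m => rpn (aL a 0 (m + 1))
      polyTime := polyTimeRel_of_FP (FP_progU R2 hR2 (hP1' O) (hP2' O)) (fun x y => RU_eq.symm)
      long := by
        refine ⟨(Polynomial.X + 1) * (4 * qa.comp (Polynomial.X + 1) + 2) + 1, fun m => ?_⟩
        rw [rpn_length]
        have := aL_size ha (m + 1) 0
        rw [zero_add] at this
        simpa using this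
      total := by
        intro z
        simp only [RU_eq, progU_spec a R2 p1 p2 hP1 hP2]
        simp only [Polynomial.eval_add, Polynomial.eval_X, Polynomial.eval_comp,
          Polynomial.eval_mul, Polynomial.eval_ofNat, Polynomial.eval_one]
        by_cases hx : (un2 (un2 z)).length = wN (un1 z)
        · by_cases hu : (un1 (un2 z)).length ≤ p1.eval (pr (a (un1 z).length) (un1 z)).length
          · have l1 := un1_length z
            by_cases hw : un1 z ∈ Tot O
            · obtain ⟨y, hy⟩ := hw _ hx
              refine ⟨false :: y, ?_, fun _ _ => ⟨false, y, rfl, Or.inl ⟨rfl, hy⟩⟩⟩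
              have h1 := hy.1
              have h2 := z_le (un1 z)
              rw [List.length_cons]
              omega
            · rw [hL, hL'] at hw
              push Not at hw
              have h1 : pr (pr (a (un1 z).length) (un1 z)) (un1 (un2 z)) ∈ M1ᶜ := hw _ hu
              obtain ⟨y, hy1, hy2⟩ := (hM1 _).mp h1
              refine ⟨true :: y, ?_, fun _ _ => ⟨true, y, rfl, Or.inr ⟨rfl, hy1, hy2⟩⟩⟩
              rw [List.length_cons]
              have h2 := ha (un1 z).length
              have h3 := poly_mono qa l1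
              have h4 := un1_length (un2 z)
              have h5 := un2_length z
              have h6 : (pr (pr (a (un1 z).length) (un1 z)) (un1 (un2 z))).length ≤
                  4 * qa.eval z.length + 3 * z.length + 3 := by
                rw [pr_length, pr_length]
                omega
              have h7 := poly_mono p2 h6
              omega
          · exact ⟨[], by simp, fun _ h' => absurd h' hu⟩
        · exact ⟨[], by simp, fun h' => absurd h' hx⟩ }
  refine ⟨T, fun S => ?_⟩
  obtain ⟨i, k, hik⟩ := exists_index_rel S.polyTime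
  obtain ⟨qs, hqs⟩ := S.long
  -- the description of the problem for inputs of length `n`
  let Kp : Polynomial ℕ := k.comp (2 * qs + 1 + Polynomial.X + S.p)
  let w : ℕ → List Bool := fun n =>
    ins (Kp.eval n) (S.p.eval n) i (List.replicate n true ++ false :: S.adv n)
  have hwN : ∀ n, wN (w n) = n := by
    intro n
    simp only [wN, w, zx_ins, prs_ones]
  have hwa : ∀ n, wa (w n) = S.adv n := by
    intro n
    simp only [wa, w, zx_ins, prs_ones]
  have hacc : ∀ x y, AccW O (w x.length) x y ↔ S.IsSol x y := by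
    intro x y
    unfold AccW TFNPpoly.IsSol Usol
    rw [hwa]
    simp only [w, zi_ins, zK_ins, zN_ins]
    refine and_congr_right fun hy => ?_
    apply hik
    simp only [Kp, Polynomial.eval_comp, Polynomial.eval_add, Polynomial.eval_mul,
      Polynomial.eval_ofNat, Polynomial.eval_one, Polynomial.eval_X]
    apply poly_mono
    rw [pr_length]
    have := hqs x.length
    omega
  have htot : ∀ n, w n ∈ Tot O := by
    intro n x hx
    rw [hwN] at hx
    obtain ⟨y, hy⟩ := S.total x
    refine ⟨y, ?_⟩
    rw [← hx]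
    exact (hacc x y).mpr hy
  have hex : ∀ n, ∃ u : List Bool, u.length ≤ p1.eval (pr (a (w n).length) (w n)).length ∧
      pr (pr (a (w n).length) (w n)) u ∈ M1 := by
    intro n
    have := htot n
    rw [hL, hL'] at this
    exact this
  choose u hu1 hu2 using hex
  refine ⟨fun v => pr (un1 (un1 v)) (pr (un2 (un1 v)) (un2 v)), fun _ y => y.tail,
    fun n => pr (w n) (u n), ?_, ?_, ?_, ?_⟩
  · exact polyTimeFun_red
  · exact polyTimeFun₂_tail
  · -- the advice is polynomially long
    let WB : Polynomial ℕ := Kp + S.p + Polynomial.C i + Polynomial.X + 1 + qs + 3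
    have hWB : ∀ n, (w n).length ≤ WB.eval n := by
      intro n
      simp only [w, ins_length, WB, Polynomial.eval_add, Polynomial.eval_C, Polynomial.eval_X,
        Polynomial.eval_one, Polynomial.eval_ofNat, List.length_append, List.length_replicate,
        List.length_cons]
      have := hqs n
      omega
    refine ⟨2 * WB + 1 + p1.comp (2 * qa.comp WB + 1 + WB), fun n => ?_⟩
    simp only [Polynomial.eval_add, Polynomial.eval_mul, Polynomial.eval_comp,
      Polynomial.eval_ofNat, Polynomial.eval_one]
    rw [pr_length]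
    have h1 := hu1 n
    have h2 : (pr (a (w n).length) (w n)).length ≤ 2 * qa.eval (WB.eval n) + 1 + WB.eval n := by
      rw [pr_length]
      have h3 := ha (w n).length
      have h4 := poly_mono qa (hWB n)
      have h5 := hWB n
      omega
    have h3 := poly_mono p1 h2
    have h4 := hWB n
    omega
  · intro x y hy
    show S.IsSol x y.tail
    simp only [un1_pr, un2_pr] at hy
    have h1 := hy.2
    have eR : T.R = RU O R2 P1 P2 := rfl
    have eA : ∀ m, T.adv m = rpn (aL a 0 (m + 1)) := fun _ => rfl
    rw [eR, eA] at h1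
    have h2 : Tsol a R2 p1 p2 O (pr (w x.length) (pr (u x.length) x)) y :=
      (progU_spec a R2 p1 p2 hP1 hP2 _ _).mp (RU_eq.mp h1)
    unfold Tsol at h2
    simp only [un1_pr, un2_pr] at h2
    obtain ⟨b, y', rfl, h3⟩ := h2 (hwN x.length).symm (hu1 x.length)
    rw [List.tail_cons]
    rcases h3 with ⟨_, h3⟩ | ⟨_, h3, h4⟩
    · exact (hacc x y').mp h3
    · exfalso
      exact (hM1 _).mpr ⟨y', h3, h4⟩ (hu2 x.length)

end Pool.Agent.H65.NU
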